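import Pool.Agent.Q224.CG.Sem

/-!
# Cayley graphs of powers of a group
-/

set_option autoImplicit false

namespace Q224.CG

/-- The admissible connection sets of a group. -/
def Admissible {H : Type} [Group H] (C : Set H) : Prop := (1 : H) ∉ C ∧ ∀ c ∈ C, c⁻¹ ∈ C

/-- The Cayley graph `X(H, C)`: `h` and `h'` are adjacent if and only if `h⁻¹ * h' ∈ C`. -/
def cayley {H : Type} [Group H] (C : Set H) (hC : Admissible C) : SimpleGraph H where
  Adj h h' := h⁻¹ * h' ∈ C
  symm := ⟨fun h h' hh => by simpa using hC.2 _ hh⟩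
  loopless := ⟨fun h hh => hC.1 (by simpa using hh)⟩

variable {G : Type} [Group G] {p : ℕ} {g : G}

theorem pow_mod_p (hg : orderOf g = p) (k : ℕ) : g ^ (k % p) = g ^ k := by
  rw [← hg, pow_mod_orderOf]

section Power

variable [NeZero p]

theorem pow_val_add (hg : orderOf g = p) (a b : ZMod p) :
    g ^ (a + b).val = g ^ a.val * g ^ b.val := by
  rw [ZMod.val_add, ← pow_add, pow_mod_p hg]

theorem pow_val_neg (hg : orderOf g = p) (a : ZMod p) : g ^ (-a).val = (g ^ a.val)⁻¹ := by
  rw [eq_inv_iff_mul_eq_one, ← pow_val_add hg, neg_add_cancel, ZMod.val_zero, pow_zero]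

theorem pow_val_sub (hg : orderOf g = p) (a b : ZMod p) :
    g ^ (b - a).val = (g ^ a.val)⁻¹ * g ^ b.val := by
  rw [← pow_val_neg hg, ← pow_val_add hg, neg_add_eq_sub]

theorem pow_val_inj (hg : orderOf g = p) {a b : ZMod p} (h : g ^ a.val = g ^ b.val) : a = b := by
  have h1 : a.val = b.val := by
    refine pow_injOn_Iio_orderOf (x := g) ?_ ?_ h
    · rw [Set.mem_Iio, hg]; exact ZMod.val_lt a
    · rw [Set.mem_Iio, hg]; exact ZMod.val_lt b
  exact ZMod.val_injective p h1

omit [NeZero p] in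
theorem pow_eq_val (hg : orderOf g = p) (k : ℕ) : g ^ k = g ^ (k : ZMod p).val := by
  rw [ZMod.val_natCast, pow_mod_p hg]

/-- The exponent relative to the representatives of the cosets. -/
theorem exists_rho (hg : orderOf g = p) :
    ∃ ρ : G → ZMod p, ∀ a (k : ZMod p), ρ (a * g ^ k.val) = ρ a + k := by
  classical
  have h1 : ∀ a : G, ∃ k : ZMod p,
      a = (QuotientGroup.mk (s := Subgroup.zpowers g) a).out * g ^ k.val := by
    intro a
    have h2 : (QuotientGroup.mk (s := Subgroup.zpowers g) a).out⁻¹ * a ∈ Subgroup.zpowers g := by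
      rw [← QuotientGroup.eq, QuotientGroup.out_eq']
    have h3 : g ^ p = 1 := by rw [← hg, pow_orderOf_eq_one]
    have h4 : IsOfFinOrder g := isOfFinOrder_iff_pow_eq_one.mpr
      ⟨p, Nat.pos_of_ne_zero (NeZero.ne p), h3⟩
    rw [h4.mem_zpowers_iff_mem_range_orderOf, Finset.mem_image] at h2
    obtain ⟨k, -, hk⟩ := h2
    refine ⟨k, ?_⟩
    rw [← pow_eq_val hg, hk]
    group
  choose ρ hρ using h1
  refine ⟨ρ, fun a k => ?_⟩
  have h2 := hρ (a * g ^ k.val)
  have h3 : QuotientGroup.mk (s := Subgroup.zpowers g) (a * g ^ k.val) =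
      QuotientGroup.mk (s := Subgroup.zpowers g) a := by
    rw [QuotientGroup.eq]
    have : (a * g ^ k.val)⁻¹ * a = (g ^ k.val)⁻¹ := by group
    rw [this]
    exact inv_mem (Subgroup.pow_mem _ (Subgroup.mem_zpowers g) _)
  rw [h3] at h2
  have h4 := hρ a
  have h5 : (QuotientGroup.mk (s := Subgroup.zpowers g) a).out * (g ^ (ρ a).val * g ^ k.val) =
      (QuotientGroup.mk (s := Subgroup.zpowers g) a).out * g ^ (ρ (a * g ^ k.val)).val := by
    rw [← mul_assoc, ← h4]
    exact h2
  have h6 := mul_left_cancel h5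
  rw [← pow_val_add hg] at h6
  exact (pow_val_inj hg h6).symm

/-- The connection set given by a set of vectors. -/
def conn (p : ℕ) (g : G) {n : ℕ} (D : Set (Fin n → ZMod p)) : Set (Fin n → G) :=
  {z | ∃ s : Fin n → ZMod p, s ≠ 0 ∧ s ∉ D ∧ ∀ k, z k = g ^ (s k).val}

theorem conn_admissible (hg : orderOf g = p) {n : ℕ} {D : Set (Fin n → ZMod p)}
    (hD : ∀ d ∈ D, -d ∈ D) : Admissible (conn p g D) := by
  constructor
  · rintro ⟨s, hs, -, h⟩
    apply hs
    funext k
    refine pow_val_inj hg ?_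
    rw [← h k]
    simp
  · rintro c ⟨s, hs, hs', h⟩
    refine ⟨-s, neg_ne_zero.mpr hs, fun h' => hs' (by rw [← neg_neg s]; exact hD _ h'), fun k => ?_⟩
    rw [Pi.neg_apply, pow_val_neg hg, ← h k]
    rfl

/-- The two graphs have the same colourings. -/
theorem cayley_colorable_iff (hg : orderOf g = p) {n : ℕ} {D : Set (Fin n → ZMod p)}
    (hD : ∀ d ∈ D, -d ∈ D) (k : ℕ) :
    (cayley (conn p g D) (conn_admissible hg hD)).Colorable k ↔ (XD D hD).Colorable k := by
  constructor
  · intro h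
    refine h.of_hom (f := ⟨fun v k => g ^ (v k).val, ?_⟩)
    intro v v' hv
    refine ⟨v' - v, sub_ne_zero.mpr hv.1.symm, hv.2, fun k => ?_⟩
    rw [Pi.sub_apply, pow_val_sub hg]
    rfl
  · intro h
    obtain ⟨ρ, hρ⟩ := exists_rho hg
    refine h.of_hom (f := ⟨fun z k => ρ (z k), ?_⟩)
    rintro z z' ⟨s, hs, hs', h⟩
    have h1 : ∀ k, ρ (z' k) = ρ (z k) + s k := by
      intro k
      rw [← hρ, ← h k]
      congr 1
      change z' k = z k * ((z k)⁻¹ * z' k)
      group
    have h2 : (fun k => ρ (z' k)) - (fun k => ρ (z k)) = s := by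
      funext k
      rw [Pi.sub_apply, h1, add_sub_cancel_left]
    refine ⟨?_, ?_⟩
    · intro he
      apply hs
      rw [← h2]
      change (fun k => ρ (z' k)) - (fun k => ρ (z k)) = 0
      rw [sub_eq_zero]
      exact he.symm
    · intro he
      apply hs'
      rw [← h2]
      exact he

end Power

end Q224.CG
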