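import Pool.Agent.Q224.CG.GapC0

set_option autoImplicit false

/-!
# Project CG, job Cl0: odd almost minimisers
-/

open Polynomial Filter Topology Finset MeasureTheory

namespace Pool.Agent.Q224.CG

open Pool.Agent.Q240.CD Pool.Agent.Q240.CG
open Pool.Agent.Q16.CD (Op_odd deg_odd)
open Pool.Agent.Q61.CD (Cg_pos delta_pos g_pos Lam_nonneg Lam_mono Lam_C_mul Lam_X_le Lam_orth
  natDegree_mul_le2 int_Oo Oo_pos Oo_smul)

theorem Oo_add_le {N0 : ℕ} {v : ℝ → ℝ} (h0 : ∀ x, 0 ≤ v x) (hc : Continuous v)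
    (hi : Integrable fun x => (1 + x ^ 2) ^ (2 * N0) * v x) {p q : ℝ[X]} (hp : p.natDegree + 1 ≤ N0)
    (hq : q.natDegree + 1 ≤ N0) : Oo v (p + q) ≤ 2 * Oo v p + 2 * Oo v q := by
  have hpq : (p + q).natDegree + 1 ≤ N0 := by
    have := natDegree_add_le p q
    omega
  have i1 := int_Oo h0 hc hi p hp
  have i2 := int_Oo h0 hc hi q hq
  have i3 := int_Oo h0 hc hi (p + q) hpq
  unfold Oo
  rw [← integral_const_mul, ← integral_const_mul, ← integral_add (i1.const_mul 2) (i2.const_mul 2)]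
  refine integral_mono i3 ((i1.const_mul 2).add (i2.const_mul 2)) fun x => ?_
  simp only [eval_add]
  have e1 : (p.eval (x ^ 2) + q.eval (x ^ 2)) ^ 2 ≤ 2 * p.eval (x ^ 2) ^ 2 + 2 * q.eval (x ^ 2) ^ 2 := by
    nlinarith [sq_nonneg (p.eval (x ^ 2) - q.eval (x ^ 2))]
  have e2 : 0 ≤ x ^ 2 * v x := mul_nonneg (sq_nonneg x) (h0 x)
  have e3 := mul_le_mul_of_nonneg_right e1 e2
  calc x ^ 2 * (p.eval (x ^ 2) + q.eval (x ^ 2)) ^ 2 * v x =
      (p.eval (x ^ 2) + q.eval (x ^ 2)) ^ 2 * (x ^ 2 * v x) := by ring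
    _ ≤ _ := e3
    _ = _ := by ring

/-- the common part of the two claims -/
theorem cl0_core (hGC : S_GapC0) (hOe : S_Oeb0) {ι : Type} (l : Filter ι) [l.NeBot] (c : ℝ) (g μ : ℕ → ℝ)
    (N : ι → ℕ) (M : ι → ℕ → ℝ) (u : ι → ℝ → ℝ) (hc : 0 < c) (hF0 : Fam0 l g μ N M) (hW : Wts l g N u)
    (hW4 : Wt4 l g N u) (r0 : ι → ℝ[X])
    (hr0 : ∀ᶠ i in l, Ex g (fun j => g j * M i j) (N i - 1) 0 (r0 i)) :
    ∃ A B : ℝ, 0 < A ∧ 0 < B ∧ ∀ᶠ i in l, ∀ r : ℝ[X], r.natDegree + 1 ≤ N i →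
      Lam g (fun j => g j * M i j) (r * r) * Oo (u i) (r0 i) ≤ Lam g (fun j => g j * M i j) (r0 i * r0 i) * Oo (u i) r →
      Oo (u i) r ≤ A * r.eval 0 ^ 2 ∧ (r ≠ 0 → 0 < Oo (u i) r) ∧
      ∃ h : ℝ[X], h.natDegree + 1 ≤ N i - 1 ∧ r = C (r.eval 0) * r0 i + X * h ∧
        Lam g (fun j => g j * M i j) (X * h * h) ≤ B * r.eval 0 ^ 2 * Lam g (fun j => g j * M i j) (r0 i * r0 i) := by
  have hF := hF0.fam
  have hF' := hF0.fam'
  obtain ⟨r1, c0, hr1, hrg, hc0, hu⟩ := hW.low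
  obtain ⟨i0, hi0⟩ := hF.pm.exists
  have hg0 := hi0.pos
  obtain ⟨c1, C1, hc1, hC1, hcC⟩ := hOe l g μ N M u hF0 hW r0 hr0
  have hpm' : ∀ᶠ i in l, PM g (fun j => g j * M i j) (N i - 1) := hF'.pm
  have hK := hGC l c g μ N M u hc hF0 hW hW4 r0 hr0 (4 / c1)
  refine ⟨4 * C1, 4 * C1 / (c1 * g 0), by positivity, by positivity, ?_⟩
  filter_upwards [hF.pm, hpm', hr0, hu, hcC, hK, hW.int, hF.top.eventually_ge_atTop 2] with
    i hPM hPM' hEx hui hcCi hKi hint hN r hrd hle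
  obtain ⟨δ, hδ⟩ : ∃ δ, δ = Lam g (fun j => g j * M i j) (r0 i * r0 i) := ⟨_, rfl⟩
  have hδ0 : 0 < δ := by rw [hδ]; exact delta_pos hPM' hEx
  rw [← hδ] at hle ⊢
  obtain ⟨b, hb⟩ : ∃ b, b = r.eval 0 := ⟨_, rfl⟩
  rw [← hb]
  have hr0d : (r0 i).natDegree ≤ N i - 1 := hEx.1
  obtain ⟨h, hh⟩ : ∃ h : ℝ[X], h = (r - C b * r0 i).divX := ⟨_, rfl⟩
  have hdec : r = C b * r0 i + X * h := by
    have f1 := Polynomial.X_mul_divX_add (r - C b * r0 i)
    have f2 : (r - C b * r0 i).coeff 0 = 0 := by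
      rw [Polynomial.coeff_zero_eq_eval_zero, Polynomial.eval_sub, Polynomial.eval_mul,
        Polynomial.eval_C, hEx.2.1, hb]
      ring
    rw [f2, C_0, add_zero, ← hh] at f1
    rw [f1]
    ring
  have hhd : h.natDegree + 1 ≤ N i - 1 := by
    rw [hh, Polynomial.natDegree_divX_eq_natDegree_tsub_one]
    have : (r - C b * r0 i).natDegree ≤ N i - 1 :=
      (natDegree_sub_le_of_le (n := N i - 1) (by omega) ((natDegree_C_mul_le _ _).trans hr0d)).trans (max_self _).le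
    omega
  have horth : Lam g (fun j => g j * M i j) (r * r) = b ^ 2 * δ + Lam g (fun j => g j * M i j) (X * h * (X * h)) := by
    conv_lhs => rw [hdec]
    rw [hδ]
    exact Lam_orth hPM' hEx b h hhd
  have hOo0 : 0 < Oo (u i) (r0 i) := lt_of_lt_of_le hc1 hcCi.1
  have hOr : 0 ≤ Oo (u i) r := integral_nonneg fun x => by
    have := hW.nonneg i x
    positivity
  have hLr : Lam g (fun j => g j * M i j) (r * r) * c1 ≤ δ * Oo (u i) r := by
    refine le_trans (mul_le_mul_of_nonneg_left hcCi.1 ?_) hle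
    exact Lam_nonneg hPM' _ fun j => by rw [eval_mul]; exact mul_self_nonneg _
  have hXX : Lam g (fun j => g j * M i j) (X * h * (X * h)) ≤ Lam g (fun j => g j * M i j) (r * r) := by
    rw [horth]
    have : 0 ≤ b ^ 2 * δ := by positivity
    linarith
  have hdXh : (X * h : ℝ[X]).natDegree + 1 ≤ N i := by
    have h2 := natDegree_mul_le (p := (X : ℝ[X])) (q := h)
    have h3 := natDegree_X_le (R := ℝ)
    omega
  have hO1 : Oo (u i) (X * h) ≤ Oo (u i) r / 4 := by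
    by_cases hX : X * h = 0
    · rw [hX]
      have : Oo (u i) 0 = 0 := by
        unfold Oo
        simp
      rw [this]
      positivity
    · have hPne : X * (X * h).comp (X ^ 2) ≠ 0 := by
        intro h0
        have h1 := (mul_eq_zero.1 h0).resolve_left X_ne_zero
        rw [← expand_eq_comp_X_pow, expand_eq_zero (by norm_num)] at h1
        exact hX h1
      have hPd : (X * (X * h).comp (X ^ 2)).natDegree ≤ 2 * N i := deg_odd (Or.inr hdXh)
      have hP1 : (X * (X * h).comp (X ^ 2)).coeff 1 = 0 := by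
        rw [show (1 : ℕ) = 0 + 1 from rfl, coeff_X_mul, coeff_zero_eq_eval_zero, eval_comp, eval_pow, eval_X,
          eval_mul, eval_X]
        simp
      have key := hKi _ hPne hPd hP1
      rw [Lp0_odd hPM, Op_odd, ← hδ] at key
      have k1 : 4 / c1 * δ * Oo (u i) (X * h) ≤ Lam g (fun j => g j * M i j) (r * r) := key.le.trans hXX
      have k2 : 4 * (δ * Oo (u i) (X * h)) ≤ δ * Oo (u i) r := by
        have := mul_le_mul_of_nonneg_right k1 hc1.le
        calc 4 * (δ * Oo (u i) (X * h)) = 4 / c1 * δ * Oo (u i) (X * h) * c1 := by field_simp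
          _ ≤ _ := this
          _ ≤ _ := hLr
      have k3 : δ * (4 * Oo (u i) (X * h)) ≤ δ * Oo (u i) r := by linarith
      have k4 := le_of_mul_le_mul_left k3 hδ0
      linarith
  have hO2 : Oo (u i) r ≤ 4 * C1 * b ^ 2 := by
    have e1 : Oo (u i) r ≤ 2 * Oo (u i) (C b * r0 i) + 2 * Oo (u i) (X * h) := by
      conv_lhs => rw [hdec]
      refine Oo_add_le (hW.nonneg i) (hW.cont i) hint ?_ hdXh
      have := natDegree_C_mul_le b (r0 i)
      omega
    rw [Oo_smul] at e1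
    have e2 : b ^ 2 * Oo (u i) (r0 i) ≤ b ^ 2 * C1 := mul_le_mul_of_nonneg_left hcCi.2 (sq_nonneg b)
    linarith
  refine ⟨hO2, fun hr => ?_, h, hhd, hdec, ?_⟩
  · exact Oo_pos (hW.nonneg i) (hW.cont i) hint hr1 (fun x hx => lt_of_lt_of_le hc0 (hui x hx)) r hrd hr
  · have e1 := (Lam_X_le hPM' h hhd).trans hXX
    have e2 : Lam g (fun j => g j * M i j) (r * r) * c1 ≤ δ * (4 * C1 * b ^ 2) :=
      hLr.trans (mul_le_mul_of_nonneg_left hO2 hδ0.le)
    have e3 : 4 * C1 / (c1 * g 0) * b ^ 2 * δ = δ * (4 * C1 * b ^ 2) / (c1 * g 0) := by ring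
    rw [e3, le_div_iff₀ (by positivity)]
    calc Lam g (fun j => g j * M i j) (X * h * h) * (c1 * g 0) =
        g 0 * Lam g (fun j => g j * M i j) (X * h * h) * c1 := by ring
      _ ≤ Lam g (fun j => g j * M i j) (r * r) * c1 := mul_le_mul_of_nonneg_right e1 hc1.le
      _ ≤ _ := e2

theorem cl0 (hGC : S_GapC0) (hOe : S_Oeb0) : S_Cl0 := by
  intro ι l c g μ N M u hc hF0 hW hW4 r0 hr0
  rcases l.eq_or_neBot with rfl | hne
  · exact ⟨⟨1, one_pos, by simp⟩, fun T ε _ => by simp⟩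
  obtain ⟨A, B, hA, hB, hcore⟩ := cl0_core hGC hOe l c g μ N M u hc hF0 hW hW4 r0 hr0
  refine ⟨⟨A, hA, ?_⟩, ?_⟩
  · filter_upwards [hcore] with i hi r hrd hle
    exact (hi r hrd hle).1
  · intro T ε hε
    have hgap : ∀ᶠ i in l, ∀ h : ℝ[X], h.natDegree + 1 ≤ N i - 1 →
        Lam g (fun j => g j * M i j) (X * h * h) ≤ B * Lam g (fun j => g j * M i j) (r0 i * r0 i) →
        ∀ t : ℝ, 0 ≤ t → t ≤ T → h.eval t ^ 2 ≤ ε ^ 2 / (T ^ 2 + 1) :=
      a_gap l g _ _ _ hF0.fam' r0 hr0 T B (ε ^ 2 / (T ^ 2 + 1)) (by positivity)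
    filter_upwards [hcore, hgap] with i hi hG r hr hrd hle
    obtain ⟨e1, e2, h, hhd, hdec, hL⟩ := hi r hrd hle
    obtain ⟨b, hb⟩ : ∃ b, b = r.eval 0 := ⟨_, rfl⟩
    rw [← hb] at e1 hdec hL ⊢
    have hb0 : b ≠ 0 := by
      intro h0
      have := e2 hr
      rw [h0] at e1
      have e3 : A * (0 : ℝ) ^ 2 = 0 := by ring
      rw [e3] at e1
      linarith
    refine ⟨hb0, fun t ht0 htT => ?_⟩
    have hs : Lam g (fun j => g j * M i j) (X * (C b⁻¹ * h) * (C b⁻¹ * h)) ≤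
        B * Lam g (fun j => g j * M i j) (r0 i * r0 i) := by
      have e3 : (X * (C b⁻¹ * h) * (C b⁻¹ * h) : ℝ[X]) = C (b⁻¹ ^ 2) * (X * h * h) := by
        rw [C_pow]
        ring
      rw [e3, Lam_C_mul]
      calc b⁻¹ ^ 2 * Lam g (fun j => g j * M i j) (X * h * h) ≤
          b⁻¹ ^ 2 * (B * b ^ 2 * Lam g (fun j => g j * M i j) (r0 i * r0 i)) :=
            mul_le_mul_of_nonneg_left hL (sq_nonneg _)
        _ = _ := by field_simp
    have hk := hG (C b⁻¹ * h) (by have := natDegree_C_mul_le b⁻¹ h; omega) hs t ht0 htT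
    rw [eval_mul, eval_C] at hk
    have f3 : r.eval t - b * (r0 i).eval t = t * h.eval t := by
      conv_lhs => rw [hdec]
      simp only [Polynomial.eval_add, Polynomial.eval_mul, Polynomial.eval_C, Polynomial.eval_X]
      ring
    rw [f3]
    refine abs_le_of_sq_le_sq ?_ (by positivity)
    rw [mul_pow, mul_pow, sq_abs]
    have f4 : h.eval t ^ 2 = b ^ 2 * (b⁻¹ * h.eval t) ^ 2 := by
      field_simp
    rw [f4]
    calc t ^ 2 * (b ^ 2 * (b⁻¹ * h.eval t) ^ 2) = b ^ 2 * (t ^ 2 * (b⁻¹ * h.eval t) ^ 2) := by ring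
      _ ≤ b ^ 2 * (T ^ 2 * (ε ^ 2 / (T ^ 2 + 1))) := by
          refine mul_le_mul_of_nonneg_left ?_ (sq_nonneg b)
          exact mul_le_mul (pow_le_pow_left₀ ht0 htT 2) hk (sq_nonneg _) (sq_nonneg _)
      _ ≤ b ^ 2 * ε ^ 2 := by
          refine mul_le_mul_of_nonneg_left ?_ (sq_nonneg b)
          rw [mul_div_assoc', div_le_iff₀ (by positivity)]
          nlinarith [sq_nonneg ε]
      _ = ε ^ 2 * b ^ 2 := by ring

end Pool.Agent.Q224.CG
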