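import Pool.Agent.Q224.CG.Uni0
import Pool.Agent.Q61.CD.Even

set_option autoImplicit false

/-!
# Project CG, job GapC0: polynomials without linear term
-/

open Polynomial Filter Topology Finset MeasureTheory

namespace Pool.Agent.Q224.CG

open Pool.Agent.Q240.CD Pool.Agent.Q240.CG
open Pool.Agent.Q16.CD (LS OS Lp_eq Op_eq LS_summ LS_add LS_mul OS_int OS_add OS_mul split_eval deg_contract
  deg_contract' deg_comp2 Lp_even Lp_odd Op_even Op_odd deg_sq deg_odd Lp_split Op_split Op_pos)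
open Pool.Agent.Q61.CD (q_bound Cg_pos delta_pos g_pos Lam_nonneg Lam_mono Lam_C_mul Lam_X_le Lam_add
  natDegree_mul_le2 split_int mj_nonneg one_le_mj meas_set summ)

theorem Lp0_smul (c : ℝ) (g M : ℕ → ℝ) (a : ℝ) (P : ℝ[X]) : Lp0 c g M (C a * P) = a ^ 2 * Lp0 c g M P := by
  rw [Lp0_eq, Lp0_eq, ← LS0_mul]
  congr 1
  rw [C_pow]
  ring

theorem Op_smul (u : ℝ → ℝ) (a : ℝ) (P : ℝ[X]) : Op u (C a * P) = a ^ 2 * Op u P := by
  rw [Op_eq, Op_eq, ← OS_mul]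
  congr 1
  rw [C_pow]
  ring

theorem MJ4_nonneg (g : ℕ → ℝ) (n : ℕ) (x : ℝ) : 0 ≤ MJ4 g n x := by
  unfold MJ4
  positivity

theorem tail4_ge {ι : Type} {l : Filter ι} {g : ℕ → ℝ} {N : ι → ℕ} {u : ι → ℝ → ℝ} (hW : Wts l g N u)
    (h : Wt4 l g N u) (ε : ℝ) (hε : 0 < ε) (X0 : ℝ) :
    ∃ X : ℝ, X0 ≤ X ∧ ∀ᶠ i in l, ∫ x in {x : ℝ | X < |x|}, MJ4 g (N i) x * u i x ≤ ε := by
  obtain ⟨X, hX⟩ := h.tail ε hε
  refine ⟨max X X0, le_max_right _ _, ?_⟩
  filter_upwards [hX, h.intM] with i hi hint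
  refine le_trans ?_ hi
  refine setIntegral_mono_set hint.integrableOn ?_ ?_
  · exact Eventually.of_forall fun x => mul_nonneg (MJ4_nonneg _ _ _) (hW.nonneg i x)
  · refine Eventually.of_forall fun x hx => ?_
    exact lt_of_le_of_lt (le_max_left _ _) hx

theorem Lam_X' (g M : ℕ → ℝ) (h : ℝ[X]) :
    Lam g (fun j => g j * M j) (X * h * h) = Lam g M (X * h * (X * h)) := by
  unfold Lam
  congr 1
  funext j
  simp only [eval_mul, eval_X]
  ring

theorem gapC0 (hGE : S_GapE) : S_GapC0 := by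
  intro ι l c g μ N M u hc hF0 hW hW4 r0 hr0 C0
  rcases l.eq_or_neBot with rfl | hne
  · simp
  have hF := hF0.fam
  have hF' := hF0.fam'
  obtain ⟨r1, c0, hr1, hrg, hc0, hu⟩ := hW.low
  obtain ⟨i0, hi0⟩ := hF.pm.exists
  have hg := g_pos hi0
  have hg0 := hi0.pos
  have hCg := Cg_pos hi0.pos
  obtain ⟨C1, hC1⟩ : ∃ C1, C1 = max C0 0 := ⟨_, rfl⟩
  have hC10 : 0 ≤ C1 := by rw [hC1]; exact le_max_right _ _
  obtain ⟨B1, hB1⟩ : ∃ B1, B1 = max (Lam g μ 1) 0 + 1 := ⟨_, rfl⟩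
  have hB10 : 0 ≤ B1 := by rw [hB1]; positivity
  obtain ⟨C2, hC2⟩ : ∃ C2, C2 = 2 * C1 + 2 * (C1 / c) * B1 := ⟨_, rfl⟩
  have hC20 : 0 ≤ C2 := by rw [hC2]; positivity
  obtain ⟨K, hKdef⟩ : ∃ K, K = 2 * (2 * (C1 / c) + 2 * (C2 / g 0 * Cg g)) + 2 * (C1 * Cg g) := ⟨_, rfl⟩
  have hK : 0 ≤ K := by rw [hKdef]; positivity
  obtain ⟨R, hR1, hR⟩ := tail4_ge hW hW4 (1 / (4 * (K + 1))) (by positivity) 1
  obtain ⟨B, hB⟩ := hW.bdd R
  have hR' : 0 < R := by linarith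
  obtain ⟨D, hD⟩ : ∃ D, D = 4 * (C1 / c) + 4 * R ^ 4 + 2 * R ^ 6 := ⟨_, rfl⟩
  have hD0 : 0 < D := by rw [hD]; positivity
  obtain ⟨ε, hεdef⟩ : ∃ e, e = min 1 (1 / (8 * R * D * (max B 0 + 1))) := ⟨_, rfl⟩
  have hε : 0 < ε := by rw [hεdef]; positivity
  have hε1 : ε ≤ 1 := by rw [hεdef]; exact min_le_left _ _
  have hε2 : 2 * R * (D * ε * max B 0) ≤ 1 / 4 := by
    have h1 : ε ≤ 1 / (8 * R * D * (max B 0 + 1)) := by rw [hεdef]; exact min_le_right _ _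
    have hBp : 0 < max B 0 + 1 := by positivity
    have hB0 : 0 ≤ max B 0 := le_max_right _ _
    calc 2 * R * (D * ε * max B 0) ≤ 2 * R * (D * (1 / (8 * R * D * (max B 0 + 1))) * max B 0) := by gcongr
      _ = (max B 0 / (max B 0 + 1)) * (1 / 4) := by field_simp; ring
      _ ≤ 1 * (1 / 4) := by
        refine mul_le_mul_of_nonneg_right ((div_le_one hBp).2 (by linarith)) (by norm_num)
      _ = 1 / 4 := one_mul _
  have hdel := a_del l g _ _ _ hF' r0 hr0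
  have v1 : ∀ᶠ i in l, Lam g (fun j => g j * M i j) (r0 i * r0 i) < ε := hdel.eventually (gt_mem_nhds hε)
  have hpm' : ∀ᶠ i in l, PM g (fun j => g j * M i j) (N i - 1) := hF'.pm
  have hgap : ∀ᶠ i in l, ∀ h : ℝ[X], h.natDegree + 1 ≤ N i - 1 →
      Lam g (fun j => g j * M i j) (X * h * h) ≤ C1 / g 0 * Lam g (fun j => g j * M i j) (r0 i * r0 i) →
      ∀ t : ℝ, 0 ≤ t → t ≤ R ^ 2 → h.eval t ^ 2 ≤ ε :=
    a_gap l g _ _ _ hF' r0 hr0 (R ^ 2) (C1 / g 0) ε hε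
  have hmom : ∀ᶠ i in l, Summable fun j => (g j * M i j) * (1 + g j) ^ (2 * (N i - 1) + 1) := by
    filter_upwards [hF.pm, hF.top.eventually_ge_atTop 2] with i h1 h2
    refine Summable.of_nonneg_of_le (fun j => ?_) (fun j => ?_) h1.sum
    · exact mul_nonneg (mul_nonneg (hg j).le (h1.nonneg j)) (pow_nonneg (by linarith [hg j]) _)
    · have e1 : (1 + g j) ^ (2 * N i) = (1 + g j) * (1 + g j) ^ (2 * (N i - 1) + 1) := by
        rw [← pow_succ']
        congr 1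
        omega
      rw [e1]
      have h3 : 0 ≤ M i j * (1 + g j) ^ (2 * (N i - 1) + 1) :=
        mul_nonneg (h1.nonneg j) (pow_nonneg (by linarith [hg j]) _)
      nlinarith
  have hgapE : ∀ᶠ i in l, ∀ h : ℝ[X], h.natDegree ≤ N i - 1 →
      Lam g (fun j => g j * M i j) (X * h * h) ≤ C2 * Lam g (fun j => g j * M i j) (r0 i * r0 i) →
      ∀ t : ℝ, 0 ≤ t → t ≤ R ^ 2 → h.eval t ^ 2 ≤ ε :=
    hGE l g _ _ _ hF' hmom r0 hr0 (R ^ 2) C2 ε hε
  have v2 : ∀ᶠ i in l, Lam g (M i) 1 < B1 := by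
    refine (hF.limP 1).eventually (gt_mem_nhds ?_)
    rw [hB1]
    have := le_max_left (Lam g μ 1) 0
    linarith
  filter_upwards [hF.pm, hpm', hr0, hu, hR, hB, hW.int, hW4.intM, v1, v2, hgap, hgapE,
    hF.top.eventually_ge_atTop 2] with i hPM hPM' hEx h3 h4 h5 h6 h7 hv1 hv2 hG hGE2 hN P0 hP0 hP0d hP01
  by_contra hcon
  rw [not_lt] at hcon
  obtain ⟨δ, hδ⟩ : ∃ δ, δ = Lam g (fun j => g j * M i j) (r0 i * r0 i) := ⟨_, rfl⟩
  have hδ0 : 0 < δ := by rw [hδ]; exact delta_pos hPM' hEx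
  rw [← hδ] at hcon hv1
  have hu0 : 0 < u i 0 := lt_of_lt_of_le hc0 (h3 0 (by rw [abs_zero]; exact hr1.le))
  have hO0 : 0 < Op (u i) P0 := Op_pos (hW.nonneg i) (hW.cont i) hu0 h6 hP0 hP0d
  obtain ⟨a, ha⟩ : ∃ a, a = 1 / Real.sqrt (Op (u i) P0) := ⟨_, rfl⟩
  have ha2 : a ^ 2 * Op (u i) P0 = 1 := by
    rw [ha, div_pow, Real.sq_sqrt hO0.le]
    field_simp
  obtain ⟨P, hP⟩ : ∃ P : ℝ[X], P = C a * P0 := ⟨_, rfl⟩
  have hPd : P.natDegree ≤ 2 * N i := by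
    rw [hP]
    exact (natDegree_C_mul_le _ _).trans hP0d
  have hP1 : P.coeff 1 = 0 := by rw [hP, coeff_C_mul, hP01, mul_zero]
  have hO1 : Op (u i) P = 1 := by rw [hP, Op_smul, ha2]
  have hL1 : Lp0 c g (M i) P ≤ C1 * δ := by
    rw [hP, Lp0_smul]
    calc a ^ 2 * Lp0 c g (M i) P0 ≤ a ^ 2 * (C0 * δ * Op (u i) P0) :=
          mul_le_mul_of_nonneg_left hcon (sq_nonneg a)
      _ = C0 * δ * (a ^ 2 * Op (u i) P0) := by ring
      _ = C0 * δ := by rw [ha2, mul_one]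
      _ ≤ C1 * δ := mul_le_mul_of_nonneg_right (by rw [hC1]; exact le_max_left _ _) hδ0.le
  -- the parts
  obtain ⟨q, hqdef⟩ : ∃ q, q = contract 2 P := ⟨_, rfl⟩
  obtain ⟨r, hrdef⟩ : ∃ r, r = contract 2 (divX P) := ⟨_, rfl⟩
  have hPs : P = q.comp (X ^ 2) + X * r.comp (X ^ 2) := by rw [hqdef, hrdef]; exact split_eval P
  have hqd : q.natDegree ≤ N i := by rw [hqdef]; exact deg_contract hPd
  have hrd : r = 0 ∨ r.natDegree + 1 ≤ N i := by
    by_cases h0 : r = 0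
    · exact Or.inl h0
    · right
      rw [hrdef] at h0 ⊢
      exact deg_contract' hPd h0
  have hrd' : r.natDegree ≤ N i - 1 := by
    rcases hrd with h | h
    · rw [h, natDegree_zero]
      omega
    · omega
  have hr00 : r.coeff 0 = 0 := by
    rw [hrdef, coeff_contract (by norm_num), coeff_divX]
    simpa using hP1
  obtain ⟨h1, hh1⟩ : ∃ h1, h1 = divX r := ⟨_, rfl⟩
  obtain ⟨h2, hh2⟩ : ∃ h2, h2 = divX q := ⟨_, rfl⟩
  have hrX : r = X * h1 := by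
    have := X_mul_divX_add r
    rw [hr00, C_0, add_zero, ← hh1] at this
    exact this.symm
  obtain ⟨b, hb⟩ : ∃ b, b = q.coeff 0 := ⟨_, rfl⟩
  have hqX : q = X * h2 + C b := by
    have := X_mul_divX_add q
    rw [← hh2, ← hb] at this
    exact this.symm
  have hq0 : q.eval 0 = b := by rw [hb, coeff_zero_eq_eval_zero]
  have hd1 : h1.natDegree + 1 ≤ N i - 1 := by
    rw [hh1, natDegree_divX_eq_natDegree_tsub_one]
    omega
  have hd2 : h2.natDegree ≤ N i - 1 := by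
    rw [hh2, natDegree_divX_eq_natDegree_tsub_one]
    omega
  -- the values
  have hsp : c * b ^ 2 + Lam g (M i) (q * q) + Lam g (fun j => g j * M i j) (r * r) ≤ C1 * δ := by
    have e1 : Lp0 c g (M i) P = Lp0 c g (M i) (q.comp (X ^ 2)) + Lp0 c g (M i) (X * r.comp (X ^ 2)) := by
      conv_lhs => rw [hPs]
      exact Lp0_split hPM hqd hrd
    rw [Lp0_even hPM, Lp0_odd hPM, hq0] at e1
    rw [← e1]
    exact hL1
  have n1 : 0 ≤ Lam g (M i) (q * q) := Lam_nonneg hPM _ fun j => by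
    rw [eval_mul]; exact mul_self_nonneg _
  have n2 : 0 ≤ Lam g (fun j => g j * M i j) (r * r) := Lam_nonneg hPM' _ fun j => by
    rw [eval_mul]; exact mul_self_nonneg _
  have n3 : 0 ≤ c * b ^ 2 := by positivity
  have m1 : Lam g (M i) (q * q) ≤ C1 * δ := by linarith
  have m2 : Lam g (fun j => g j * M i j) (r * r) ≤ C1 * δ := by linarith
  have m3 : b ^ 2 ≤ C1 / c * δ := by
    have : c * b ^ 2 ≤ C1 * δ := by linarith
    rw [div_mul_eq_mul_div, le_div_iff₀ hc]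
    linarith
  -- h1
  have k1 : Lam g (fun j => g j * M i j) (X * h1 * h1) ≤ C1 / g 0 * δ := by
    have e1 := Lam_X_le hPM' h1 hd1
    have e2 : Lam g (fun j => g j * M i j) (X * h1 * (X * h1)) = Lam g (fun j => g j * M i j) (r * r) := by
      rw [← hrX]
    rw [e2] at e1
    rw [div_mul_eq_mul_div, le_div_iff₀ hg0]
    linarith
  have gb1 := hG h1 hd1 (by rw [← hδ]; exact k1)
  -- h2
  have k2 : Lam g (M i) (X * h2 * (X * h2)) ≤ C2 * δ := by
    have hXh : (X * h2 : ℝ[X]).natDegree ≤ N i := by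
      have h2' := natDegree_mul_le (p := (X : ℝ[X])) (q := h2)
      have h3' := natDegree_X_le (R := ℝ)
      omega
    have e1 : Lam g (M i) (X * h2 * (X * h2)) ≤ Lam g (M i) (C 2 * (q * q) + C (2 * b ^ 2) * 1) := by
      refine Lam_mono hPM _ _ (natDegree_mul_le2 hXh hXh) ?_ fun j => ?_
      · refine natDegree_add_le_of_degree_le ((natDegree_C_mul_le _ _).trans (natDegree_mul_le2 hqd hqd)) ?_
        rw [mul_one, natDegree_C]
        omega
      · have e2 : (X * h2).eval (g j) = q.eval (g j) - b := by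
          rw [hqX, eval_add, eval_C]
          ring
        rw [eval_mul, e2]
        simp only [eval_add, eval_mul, eval_C, eval_one]
        nlinarith [sq_nonneg (q.eval (g j) + b)]
    rw [Lam_add hPM _ _ ((natDegree_C_mul_le _ _).trans (natDegree_mul_le2 hqd hqd))
      (by rw [mul_one, natDegree_C]; omega), Lam_C_mul, Lam_C_mul] at e1
    have e3 : 0 ≤ Lam g (M i) 1 := Lam_nonneg hPM _ fun j => by rw [eval_one]; exact zero_le_one
    have e4 : 2 * b ^ 2 * Lam g (M i) 1 ≤ 2 * (C1 / c * δ) * B1 := by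
      have : 0 ≤ C1 / c * δ := by positivity
      gcongr
    calc _ ≤ _ := e1
      _ ≤ 2 * (C1 * δ) + 2 * (C1 / c * δ) * B1 := by linarith
      _ = C2 * δ := by rw [hC2]; ring
  have gb2 := hGE2 h2 hd2 (by rw [← hδ, Lam_X']; exact k2)
  have k3 : Lam g (fun j => g j * M i j) (h2 * h2) ≤ C2 / g 0 * δ := by
    rw [← Lam_X]
    have e1 := Lam_X_le hPM h2 (by omega)
    rw [div_mul_eq_mul_div, le_div_iff₀ hg0]
    linarith
  -- pointwise
  have p0 : ∀ x, P.eval x = q.eval (x ^ 2) + x * r.eval (x ^ 2) := by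
    intro x
    conv_lhs => rw [hPs]
    simp only [eval_add, eval_mul, eval_comp, eval_pow, eval_X]
  have p1 : ∀ x, P.eval x ^ 2 ≤ 2 * (2 * b ^ 2 + 2 * ((x ^ 2) ^ 2 * h2.eval (x ^ 2) ^ 2)) +
      2 * (x ^ 2 * r.eval (x ^ 2) ^ 2) := by
    intro x
    have e1 : q.eval (x ^ 2) = x ^ 2 * h2.eval (x ^ 2) + b := by
      conv_lhs => rw [hqX]
      simp only [eval_add, eval_mul, eval_X, eval_C]
    have e2 : q.eval (x ^ 2) ^ 2 ≤ 2 * b ^ 2 + 2 * ((x ^ 2) ^ 2 * h2.eval (x ^ 2) ^ 2) := by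
      rw [e1]
      nlinarith [sq_nonneg (x ^ 2 * h2.eval (x ^ 2) - b)]
    rw [p0]
    nlinarith [sq_nonneg (q.eval (x ^ 2) - x * r.eval (x ^ 2))]
  have hint : Integrable fun x => P.eval x ^ 2 * u i x := by
    have := OS_int (hW.nonneg i) (hW.cont i) h6 (deg_sq hPd hPd)
    refine this.congr (Eventually.of_forall fun x => ?_)
    show (P * P).eval x * u i x = P.eval x ^ 2 * u i x
    rw [eval_mul, sq]
  have fin := split_int (F := fun x => P.eval x ^ 2 * u i x)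
    (G := fun x => MJ4 g (N i) x * u i x) (A := fun _ => 0) (K := K)
    (η := D * ε * max B 0) (τ := 1 / (4 * (K + 1))) hR'.le hint h7
    (integrable_zero _ _ _) (fun _ => le_rfl) hK (fun x => ?_) (fun x hx => ?_) h4
  · rw [integral_zero, zero_add] at fin
    have e2 : ∫ x, P.eval x ^ 2 * u i x = 1 := hO1
    rw [e2] at fin
    have e6 : K * (1 / (4 * (K + 1))) ≤ 1 / 4 := by
      have e7 : K * (1 / (4 * (K + 1))) = (K / (K + 1)) * (1 / 4) := by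
        field_simp
      have e8 : K / (K + 1) ≤ 1 := (div_le_one (by positivity)).2 (by linarith)
      rw [e7]
      linarith
    linarith
  · rw [← mul_assoc]
    refine mul_le_mul_of_nonneg_right ?_ (hW.nonneg i x)
    refine (p1 x).trans ?_
    have hmj : 1 ≤ mj g (N i - 2) (x ^ 2) ^ 2 := one_le_pow₀ (one_le_mj _ _ _)
    have hx0 : 0 ≤ x ^ 2 := sq_nonneg x
    have w1 : (x ^ 2) ^ 2 * ((1 + x ^ 2) ^ 2 * mj g (N i - 2) (x ^ 2) ^ 2) ≤ MJ4 g (N i) x := by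
      unfold MJ4
      rw [← mul_assoc]
      refine mul_le_mul_of_nonneg_right ?_ (by positivity)
      have : (x ^ 2) ^ 2 ≤ (1 + x ^ 2) ^ 2 := pow_le_pow_left₀ hx0 (by linarith) 2
      calc (x ^ 2) ^ 2 * (1 + x ^ 2) ^ 2 ≤ (1 + x ^ 2) ^ 2 * (1 + x ^ 2) ^ 2 :=
            mul_le_mul_of_nonneg_right this (by positivity)
        _ = (1 + x ^ 2) ^ 4 := by ring
    have w2 : x ^ 2 * ((1 + x ^ 2) ^ 2 * mj g (N i - 2) (x ^ 2) ^ 2) ≤ MJ4 g (N i) x := by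
      unfold MJ4
      rw [← mul_assoc]
      refine mul_le_mul_of_nonneg_right ?_ (by positivity)
      have h1' : (1 : ℝ) ≤ (1 + x ^ 2) := by linarith
      have : x ^ 2 ≤ (1 + x ^ 2) ^ 2 := by nlinarith
      calc x ^ 2 * (1 + x ^ 2) ^ 2 ≤ (1 + x ^ 2) ^ 2 * (1 + x ^ 2) ^ 2 :=
            mul_le_mul_of_nonneg_right this (by positivity)
        _ = (1 + x ^ 2) ^ 4 := by ring
    have w3 : 1 ≤ MJ4 g (N i) x := by
      unfold MJ4
      exact one_le_mul_of_one_le_of_one_le (one_le_pow₀ (by linarith)) hmj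
    have t1 := q_bound a_kb hPM' hEx hd2 (K := C2 / g 0) (by rw [← hδ]; exact k3) x
    have t2 := q_bound a_kb hPM' hEx hrd' (K := C1) (by rw [← hδ]; exact m2) x
    rw [show N i - 1 - 1 = N i - 2 by omega] at t1 t2
    have t3 : (x ^ 2) ^ 2 * h2.eval (x ^ 2) ^ 2 ≤ C2 / g 0 * Cg g * MJ4 g (N i) x := by
      calc (x ^ 2) ^ 2 * h2.eval (x ^ 2) ^ 2 ≤
          (x ^ 2) ^ 2 * (C2 / g 0 * (Cg g * ((1 + x ^ 2) ^ 2 * mj g (N i - 2) (x ^ 2) ^ 2))) :=
            mul_le_mul_of_nonneg_left t1 (by positivity)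
        _ = C2 / g 0 * Cg g * ((x ^ 2) ^ 2 * ((1 + x ^ 2) ^ 2 * mj g (N i - 2) (x ^ 2) ^ 2)) := by ring
        _ ≤ _ := mul_le_mul_of_nonneg_left w1 (by positivity)
    have t4 : x ^ 2 * r.eval (x ^ 2) ^ 2 ≤ C1 * Cg g * MJ4 g (N i) x := by
      calc x ^ 2 * r.eval (x ^ 2) ^ 2 ≤
          x ^ 2 * (C1 * (Cg g * ((1 + x ^ 2) ^ 2 * mj g (N i - 2) (x ^ 2) ^ 2))) :=
            mul_le_mul_of_nonneg_left t2 (by positivity)
        _ = C1 * Cg g * (x ^ 2 * ((1 + x ^ 2) ^ 2 * mj g (N i - 2) (x ^ 2) ^ 2)) := by ring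
        _ ≤ _ := mul_le_mul_of_nonneg_left w2 (by positivity)
    have t5 : b ^ 2 ≤ C1 / c * MJ4 g (N i) x := by
      have : C1 / c * δ ≤ C1 / c * MJ4 g (N i) x := by
        refine mul_le_mul_of_nonneg_left ?_ (by positivity)
        linarith
      linarith
    calc 2 * (2 * b ^ 2 + 2 * ((x ^ 2) ^ 2 * h2.eval (x ^ 2) ^ 2)) + 2 * (x ^ 2 * r.eval (x ^ 2) ^ 2) ≤
        2 * (2 * (C1 / c * MJ4 g (N i) x) + 2 * (C2 / g 0 * Cg g * MJ4 g (N i) x)) +
          2 * (C1 * Cg g * MJ4 g (N i) x) := by linarith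
      _ = K * MJ4 g (N i) x := by rw [hKdef]; ring
  · rw [zero_add]
    have hx2 : x ^ 2 ≤ R ^ 2 := sq_le_sq' (by linarith [(abs_le.1 hx).1]) (abs_le.1 hx).2
    have s1 := gb1 (x ^ 2) (sq_nonneg x) hx2
    have s2 := gb2 (x ^ 2) (sq_nonneg x) hx2
    have s3 : (x ^ 2) ^ 2 * h2.eval (x ^ 2) ^ 2 ≤ R ^ 4 * ε := by
      calc (x ^ 2) ^ 2 * h2.eval (x ^ 2) ^ 2 ≤ (R ^ 2) ^ 2 * ε :=
            mul_le_mul (pow_le_pow_left₀ (sq_nonneg x) hx2 2) s2 (sq_nonneg _) (by positivity)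
        _ = R ^ 4 * ε := by ring
    have s4 : x ^ 2 * r.eval (x ^ 2) ^ 2 ≤ R ^ 6 * ε := by
      have e1 : r.eval (x ^ 2) = x ^ 2 * h1.eval (x ^ 2) := by
        conv_lhs => rw [hrX]
        rw [eval_mul, eval_X]
      rw [e1]
      calc x ^ 2 * (x ^ 2 * h1.eval (x ^ 2)) ^ 2 = (x ^ 2) ^ 3 * h1.eval (x ^ 2) ^ 2 := by ring
        _ ≤ (R ^ 2) ^ 3 * ε :=
            mul_le_mul (pow_le_pow_left₀ (sq_nonneg x) hx2 3) s1 (sq_nonneg _) (by positivity)
        _ = R ^ 6 * ε := by ring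
    have s5 : b ^ 2 ≤ C1 / c * ε := m3.trans (mul_le_mul_of_nonneg_left hv1.le (by positivity))
    have s6 : P.eval x ^ 2 ≤ D * ε := by
      refine (p1 x).trans ?_
      calc _ ≤ 2 * (2 * (C1 / c * ε) + 2 * (R ^ 4 * ε)) + 2 * (R ^ 6 * ε) := by linarith
        _ = D * ε := by rw [hD]; ring
    exact mul_le_mul s6 ((h5 x hx).trans (le_max_left _ _)) (hW.nonneg i x) (by positivity)

end Pool.Agent.Q224.CG
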