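import Mathlib

/-!
# Vectors as lists of digits, and a greedy choice of vectors
-/

set_option autoImplicit false

namespace Q224.CG

/-- All lists of length `n` with entries in `K`. -/
def vecs (K : List ℕ) (n : ℕ) : List (List ℕ) :=
  (List.range n).foldl (fun ss _ => K.flatMap (fun x => ss.map (fun s => x :: s))) [[]]

theorem vecs_zero (K : List ℕ) : vecs K 0 = [[]] := rfl

theorem vecs_succ (K : List ℕ) (n : ℕ) :
    vecs K (n + 1) = K.flatMap (fun x => (vecs K n).map (fun s => x :: s)) := by
  rw [vecs, List.range_succ, List.foldl_append]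
  rfl

theorem mem_vecs {K : List ℕ} {n : ℕ} {l : List ℕ} :
    l ∈ vecs K n ↔ l.length = n ∧ ∀ x ∈ l, x ∈ K := by
  induction n generalizing l with
  | zero =>
    rw [vecs_zero, List.mem_singleton, List.length_eq_zero_iff]
    constructor
    · rintro rfl
      simp
    · exact fun h => h.1
  | succ n ih =>
    rw [vecs_succ, List.mem_flatMap]
    constructor
    · rintro ⟨x, hx, h⟩
      rw [List.mem_map] at h
      obtain ⟨s, hs, rfl⟩ := h
      rw [ih] at hs
      refine ⟨by rw [List.length_cons, hs.1], fun y hy => ?_⟩
      rcases List.mem_cons.mp hy with rfl | hy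
      · exact hx
      · exact hs.2 y hy
    · rintro ⟨h1, h2⟩
      cases l with
      | nil => simp at h1
      | cons x s =>
        refine ⟨x, h2 x List.mem_cons_self, List.mem_map_of_mem (ih.mpr ⟨?_, fun y hy => ?_⟩)⟩
        · simpa using h1
        · exact h2 y (List.mem_cons_of_mem _ hy)

theorem vecs_length (K : List ℕ) (n : ℕ) : (vecs K n).length = K.length ^ n := by
  induction n with
  | zero => simp [vecs_zero]
  | succ n ih =>
    rw [vecs_succ, List.length_flatMap]
    simp only [List.length_map, List.map_const', List.sum_replicate, smul_eq_mul]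
    rw [ih, pow_succ, mul_comm]

theorem vecs_nodup {K : List ℕ} (hK : K.Nodup) (n : ℕ) : (vecs K n).Nodup := by
  induction n with
  | zero => simp [vecs_zero]
  | succ n ih =>
    rw [vecs_succ, List.nodup_flatMap]
    refine ⟨fun x _ => ih.map (List.cons_injective), ?_⟩
    refine hK.imp ?_
    intro a b hab
    rw [Function.onFun, List.disjoint_left]
    intro l hl hl'
    rw [List.mem_map] at hl hl'
    obtain ⟨s, -, rfl⟩ := hl
    obtain ⟨s', -, h⟩ := hl'
    rw [List.cons.injEq] at h
    exact hab h.1.symm

/-- The pair `(p ^ t, t)` for the first `t` with `m + 8 ≤ p ^ t`. -/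
def pw (p m : ℕ) : ℕ × ℕ :=
  (List.range (m + 8)).foldl (fun s _ => if s.1 < m + 8 then (s.1 * p, s.2 + 1) else s) (1, 0)

theorem pw_fold (p m : ℕ) (l : List ℕ) :
    (l.foldl (fun (s : ℕ × ℕ) _ => if s.1 < m + 8 then (s.1 * p, s.2 + 1) else s) (1, 0)).1 =
      p ^ (l.foldl (fun (s : ℕ × ℕ) _ => if s.1 < m + 8 then (s.1 * p, s.2 + 1) else s) (1, 0)).2 := by
  induction l using List.reverseRecOn with
  | nil => rfl
  | append_singleton l a ih =>
    rw [List.foldl_append, List.foldl_cons, List.foldl_nil]
    split_ifs
    · rw [ih, pow_succ]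
    · exact ih

theorem pw_fold_le (p m : ℕ) (hp : 1 ≤ p) (l : List ℕ) :
    (l.foldl (fun (s : ℕ × ℕ) _ => if s.1 < m + 8 then (s.1 * p, s.2 + 1) else s) (1, 0)).1 ≤
      (m + 8) * p := by
  induction l using List.reverseRecOn with
  | nil =>
    change 1 ≤ _
    nlinarith
  | append_singleton l a ih =>
    rw [List.foldl_append, List.foldl_cons, List.foldl_nil]
    split_ifs with h
    · exact Nat.mul_le_mul_right _ h.le
    · exact ih

theorem pw_fold_snd (p m : ℕ) (l : List ℕ) :
    (l.foldl (fun (s : ℕ × ℕ) _ => if s.1 < m + 8 then (s.1 * p, s.2 + 1) else s) (1, 0)).2 ≤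
      l.length := by
  induction l using List.reverseRecOn with
  | nil => exact le_rfl
  | append_singleton l a ih =>
    rw [List.foldl_append, List.foldl_cons, List.foldl_nil, List.length_append,
      List.length_singleton]
    split_ifs
    · exact Nat.succ_le_succ ih
    · omega

theorem pw_fold_ge (p m : ℕ) (hp : 2 ≤ p) (l : List ℕ) :
    m + 8 ≤ (l.foldl (fun (s : ℕ × ℕ) _ => if s.1 < m + 8 then (s.1 * p, s.2 + 1) else s) (1, 0)).1 ∨
      l.length < (l.foldl (fun (s : ℕ × ℕ) _ =>
        if s.1 < m + 8 then (s.1 * p, s.2 + 1) else s) (1, 0)).1 := by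
  induction l using List.reverseRecOn with
  | nil => right; exact Nat.one_pos
  | append_singleton l a ih =>
    rw [List.foldl_append, List.foldl_cons, List.foldl_nil, List.length_append,
      List.length_singleton]
    rcases ih with ih | ih
    · left
      rw [if_neg (by omega)]
      exact ih
    · split_ifs with h
      · right
        have := Nat.mul_le_mul_left (l.foldl (fun (s : ℕ × ℕ) _ =>
          if s.1 < m + 8 then (s.1 * p, s.2 + 1) else s) (1, 0)).1 hp
        change l.length + 1 < (l.foldl (fun (s : ℕ × ℕ) _ =>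
          if s.1 < m + 8 then (s.1 * p, s.2 + 1) else s) (1, 0)).1 * p
        omega
      · left
        omega

theorem pw_eq (p m : ℕ) : (pw p m).1 = p ^ (pw p m).2 := pw_fold p m _

theorem pw_le (p m : ℕ) (hp : 1 ≤ p) : (pw p m).1 ≤ (m + 8) * p := pw_fold_le p m hp _

theorem pw_snd_le (p m : ℕ) : (pw p m).2 ≤ m + 8 := by
  have := pw_fold_snd p m (List.range (m + 8))
  rwa [List.length_range] at this

theorem pw_ge (p m : ℕ) (hp : 2 ≤ p) : m + 8 ≤ (pw p m).1 := by
  rcases pw_fold_ge p m hp (List.range (m + 8)) with h | h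
  · exact h
  · rw [List.length_range] at h
    exact h.le

/-! ### Vectors -/

/-- The vector of a list of digits. -/
def toVec (p n : ℕ) (l : List ℕ) : Fin n → ZMod p := fun k => ((l.getD k 0 : ℕ) : ZMod p)

/-- Addition modulo `p`. -/
def addL (p : ℕ) (l l' : List ℕ) : List ℕ := (l.zip l').map (fun q => (q.1 + q.2) % p)

/-- Subtraction modulo `p`. -/
def subL (p : ℕ) (l l' : List ℕ) : List ℕ := (l.zip l').map (fun q => (q.1 + (p - q.2)) % p)

/-- Scalar multiplication modulo `p`. -/
def mulL (p c : ℕ) (l : List ℕ) : List ℕ := l.map (fun x => (c * x) % p)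

/-- Lists of `n` digits. -/
def Dig (p n : ℕ) (l : List ℕ) : Prop := l.length = n ∧ ∀ x ∈ l, x < p

theorem dig_vecs {p n : ℕ} {l : List ℕ} : l ∈ vecs (List.range p) n ↔ Dig p n l := by
  rw [mem_vecs]
  simp only [List.mem_range]
  rfl

theorem getD_eq {α : Type*} {l : List α} {d : α} {k : ℕ} (h : k < l.length) :
    l.getD k d = l[k] := by
  rw [List.getD_eq_getElem _ _ h]

variable {p n : ℕ}

theorem dig_addL (hp : 0 < p) {l l' : List ℕ} (h : Dig p n l) (h' : Dig p n l') :
    Dig p n (addL p l l') := by
  refine ⟨?_, fun x hx => ?_⟩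
  · rw [addL, List.length_map, List.length_zip, h.1, h'.1, min_self]
  · rw [addL, List.mem_map] at hx
    obtain ⟨q, -, rfl⟩ := hx
    exact Nat.mod_lt _ hp

theorem dig_subL (hp : 0 < p) {l l' : List ℕ} (h : Dig p n l) (h' : Dig p n l') :
    Dig p n (subL p l l') := by
  refine ⟨?_, fun x hx => ?_⟩
  · rw [subL, List.length_map, List.length_zip, h.1, h'.1, min_self]
  · rw [subL, List.mem_map] at hx
    obtain ⟨q, -, rfl⟩ := hx
    exact Nat.mod_lt _ hp

theorem dig_mulL (hp : 0 < p) {l : List ℕ} (c : ℕ) (h : Dig p n l) : Dig p n (mulL p c l) := by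
  refine ⟨?_, fun x hx => ?_⟩
  · rw [mulL, List.length_map, h.1]
  · rw [mulL, List.mem_map] at hx
    obtain ⟨q, -, rfl⟩ := hx
    exact Nat.mod_lt _ hp

theorem toVec_addL {l l' : List ℕ} (h : Dig p n l) (h' : Dig p n l') :
    toVec p n (addL p l l') = toVec p n l + toVec p n l' := by
  funext k
  have hk : (k : ℕ) < l.length := h.1 ▸ k.2
  have hk' : (k : ℕ) < l'.length := h'.1 ▸ k.2
  have hk2 : (k : ℕ) < ((l.zip l').map (fun q => (q.1 + q.2) % p)).length := by
    rw [List.length_map, List.length_zip]
    exact lt_min hk hk'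
  rw [Pi.add_apply]
  unfold toVec addL
  rw [getD_eq hk, getD_eq hk', getD_eq hk2]
  rw [List.getElem_map, List.getElem_zip, ZMod.natCast_mod, Nat.cast_add]

theorem toVec_subL {l l' : List ℕ} (h : Dig p n l) (h' : Dig p n l') :
    toVec p n (subL p l l') = toVec p n l - toVec p n l' := by
  funext k
  have hk : (k : ℕ) < l.length := h.1 ▸ k.2
  have hk' : (k : ℕ) < l'.length := h'.1 ▸ k.2
  have hk2 : (k : ℕ) < ((l.zip l').map (fun q => (q.1 + (p - q.2)) % p)).length := by
    rw [List.length_map, List.length_zip]
    exact lt_min hk hk'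
  rw [Pi.sub_apply]
  unfold toVec subL
  rw [getD_eq hk, getD_eq hk', getD_eq hk2]
  rw [List.getElem_map, List.getElem_zip, ZMod.natCast_mod, Nat.cast_add,
    Nat.cast_sub (h'.2 _ (List.getElem_mem _)).le, ZMod.natCast_self, zero_sub, sub_eq_add_neg]

theorem toVec_mulL {l : List ℕ} (c : ℕ) (h : Dig p n l) :
    toVec p n (mulL p c l) = (c : ZMod p) • toVec p n l := by
  funext k
  have hk : (k : ℕ) < l.length := h.1 ▸ k.2
  have hk2 : (k : ℕ) < (l.map (fun x => (c * x) % p)).length := by
    rw [List.length_map]
    exact hk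
  rw [Pi.smul_apply]
  unfold toVec mulL
  rw [getD_eq hk, getD_eq hk2]
  rw [List.getElem_map, ZMod.natCast_mod, Nat.cast_mul, smul_eq_mul]

theorem toVec_inj {l l' : List ℕ} (h : Dig p n l) (h' : Dig p n l')
    (he : toVec p n l = toVec p n l') : l = l' := by
  refine List.ext_getElem (h.1.trans h'.1.symm) fun k hk hk' => ?_
  have h1 := congrFun he ⟨k, h.1 ▸ hk⟩
  unfold toVec at h1
  rw [getD_eq hk, getD_eq hk', ZMod.natCast_eq_natCast_iff'] at h1
  rwa [Nat.mod_eq_of_lt (h.2 _ (List.getElem_mem _)),
    Nat.mod_eq_of_lt (h'.2 _ (List.getElem_mem _))] at h1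

/-- The list of digits of a vector. -/
def ofVec {p n : ℕ} (v : Fin n → ZMod p) : List ℕ := List.ofFn fun k => (v k).val

theorem dig_ofVec [NeZero p] (v : Fin n → ZMod p) : Dig p n (ofVec v) := by
  refine ⟨by rw [ofVec, List.length_ofFn], fun x hx => ?_⟩
  rw [ofVec, List.mem_ofFn] at hx
  obtain ⟨k, rfl⟩ := hx
  exact ZMod.val_lt _

theorem toVec_ofVec [NeZero p] (v : Fin n → ZMod p) : toVec p n (ofVec v) = v := by
  funext k
  have hk : (k : ℕ) < (List.ofFn fun k => (v k).val).length := by
    rw [List.length_ofFn]; exact k.2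
  unfold toVec ofVec
  rw [getD_eq hk]
  rw [List.getElem_ofFn, ZMod.natCast_zmod_val]

/-! ### Combinations -/

/-- Combinations of at most `k` vectors. -/
def comb (p : ℕ) (z : List ℕ) (S : List (List ℕ)) : ℕ → List (List ℕ)
  | 0 => [z]
  | k + 1 => comb p z S k ++ (comb p z S k).flatMap fun u => S.flatMap fun s =>
      (List.range p).map fun c => addL p u (mulL p c s)

theorem comb_length (p : ℕ) (z : List ℕ) (S : List (List ℕ)) (k : ℕ) :
    (comb p z S k).length = (1 + S.length * p) ^ k := by
  induction k with
  | zero => rfl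
  | succ k ih =>
    rw [comb, List.length_append, List.length_flatMap]
    simp only [List.length_flatMap, List.length_map, List.length_range, List.map_const',
      List.sum_replicate, smul_eq_mul]
    rw [ih]
    ring

theorem dig_comb (hp : 0 < p) {z : List ℕ} (hz : Dig p n z) {S : List (List ℕ)}
    (hS : ∀ s ∈ S, Dig p n s) (k : ℕ) : ∀ l ∈ comb p z S k, Dig p n l := by
  induction k with
  | zero =>
    intro l hl
    rw [comb, List.mem_singleton] at hl
    rw [hl]
    exact hz
  | succ k ih =>
    intro l hl
    rw [comb, List.mem_append, List.mem_flatMap] at hl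
    rcases hl with hl | ⟨u, hu, hl⟩
    · exact ih l hl
    · rw [List.mem_flatMap] at hl
      obtain ⟨s, hs, hl⟩ := hl
      rw [List.mem_map] at hl
      obtain ⟨c, -, rfl⟩ := hl
      exact dig_addL hp (ih u hu) (dig_mulL hp c (hS s hs))

/-- Every combination of at most `k` vectors is in the list. -/
theorem exists_comb [NeZero p] {z : List ℕ} (hz : Dig p n z) (hz0 : toVec p n z = 0)
    {S : List (List ℕ)} (hS : ∀ s ∈ S, Dig p n s) (k : ℕ) : ∀ f : Fin S.length → ZMod p,
      (Finset.univ.filter fun w => f w ≠ 0).card ≤ k →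
      ∃ l ∈ comb p z S k, toVec p n l = ∑ w, f w • toVec p n S[w] := by
  classical
  induction k with
  | zero =>
    intro f hf
    refine ⟨z, List.mem_singleton_self z, ?_⟩
    rw [hz0]
    symm
    refine Finset.sum_eq_zero fun w _ => ?_
    have h1 : f w = 0 := by
      by_contra hw
      have h2 : w ∈ Finset.univ.filter fun w => f w ≠ 0 := by simp [hw]
      have := Finset.card_pos.mpr ⟨w, h2⟩
      omega
    rw [h1, zero_smul]
  | succ k ih =>
    intro f hf
    by_cases h0 : ∃ w, f w ≠ 0
    · obtain ⟨w, hw⟩ := h0
      obtain ⟨l, hl, he⟩ := ih (Function.update f w 0) (by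
        have h1 : (Finset.univ.filter fun v => Function.update f w 0 v ≠ 0) ⊆
            (Finset.univ.filter fun v => f v ≠ 0).erase w := by
          intro v hv
          rw [Finset.mem_filter] at hv
          rw [Finset.mem_erase, Finset.mem_filter]
          have hvw : v ≠ w := by
            rintro rfl
            apply hv.2
            rw [Function.update_self]
          refine ⟨hvw, Finset.mem_univ _, ?_⟩
          rw [← Function.update_of_ne hvw 0 f]
          exact hv.2
        have h2 := Finset.card_le_card h1
        rw [Finset.card_erase_of_mem (by simp [hw])] at h2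
        omega)
      refine ⟨addL p l (mulL p (f w).val S[w]), ?_, ?_⟩
      · rw [comb, List.mem_append, List.mem_flatMap]
        right
        refine ⟨l, hl, ?_⟩
        rw [List.mem_flatMap]
        refine ⟨S[w], List.getElem_mem _, ?_⟩
        exact List.mem_map_of_mem (List.mem_range.mpr (ZMod.val_lt _))
      · have h1 := hS S[w] (List.getElem_mem _)
        have hp : 0 < p := Nat.pos_of_ne_zero (NeZero.ne p)
        rw [toVec_addL (dig_comb hp hz hS k l hl) (dig_mulL hp _ h1), he,
          toVec_mulL _ h1, ZMod.natCast_zmod_val]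
        rw [← Finset.add_sum_erase _ _ (Finset.mem_univ w),
          ← Finset.add_sum_erase _ (fun v => f v • toVec p n S[v]) (Finset.mem_univ w),
          Function.update_self, zero_smul, zero_add, add_comm]
        congr 1
        refine Finset.sum_congr rfl fun v hv => ?_
        rw [Function.update_of_ne (Finset.ne_of_mem_erase hv)]
    · push Not at h0
      obtain ⟨l, hl, he⟩ := ih f (by
        have : (Finset.univ.filter fun w => f w ≠ 0) = ∅ := by
          rw [Finset.filter_eq_empty_iff]
          intro w _
          simp [h0 w]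
        rw [this]
        simp)
      refine ⟨l, ?_, he⟩
      rw [comb, List.mem_append]
      exact Or.inl hl

/-! ### The greedy choice -/

/-- The zero vector. -/
def zeroL (n : ℕ) : List ℕ := (List.range n).map fun _ => 0

theorem dig_zeroL (hp : 0 < p) (n : ℕ) : Dig p n (zeroL n) := by
  refine ⟨by rw [zeroL, List.length_map, List.length_range], fun x hx => ?_⟩
  rw [zeroL, List.mem_map] at hx
  obtain ⟨k, -, rfl⟩ := hx
  exact hp

theorem toVec_zeroL (p n : ℕ) : toVec p n (zeroL n) = 0 := by
  funext k
  have hk : (k : ℕ) < ((List.range n).map fun _ => 0).length := by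
    rw [List.length_map, List.length_range]; exact k.2
  unfold toVec zeroL
  rw [getD_eq hk]
  rw [List.getElem_map]
  simp

/-- One step of the greedy choice. -/
def gstep (p : ℕ) (z : List ℕ) (V S : List (List ℕ)) : List (List ℕ) :=
  S ++ [((V.filter fun v => !decide (v ∈ comb p z S 5)).head?).getD z]

/-- The greedy choice of `N` vectors. -/
def greedy (p : ℕ) (z : List ℕ) (V : List (List ℕ)) (N : ℕ) : List (List ℕ) :=
  (List.range N).foldl (fun S _ => gstep p z V S) []

theorem greedy_succ (p : ℕ) (z : List ℕ) (V : List (List ℕ)) (N : ℕ) :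
    greedy p z V (N + 1) = gstep p z V (greedy p z V N) := by
  rw [greedy, List.range_succ, List.foldl_append]
  rfl

theorem greedy_length (p : ℕ) (z : List ℕ) (V : List (List ℕ)) (N : ℕ) :
    (greedy p z V N).length = N := by
  induction N with
  | zero => rfl
  | succ N ih => rw [greedy_succ, gstep, List.length_append, ih, List.length_singleton]

theorem greedy_mem {p : ℕ} {z : List ℕ} {V : List (List ℕ)} (hz : z ∈ V) (N : ℕ) :
    ∀ l ∈ greedy p z V N, l ∈ V := by
  induction N with
  | zero => intro l hl; simp [greedy] at hl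
  | succ N ih =>
    intro l hl
    rw [greedy_succ, gstep, List.mem_append, List.mem_singleton] at hl
    rcases hl with hl | hl
    · exact ih l hl
    · rw [hl]
      rcases h : (V.filter fun v => !decide (v ∈ comb p z (greedy p z V N) 5)).head? with _ | v
      · exact hz
      · exact List.mem_of_mem_filter (List.mem_of_mem_head? h)

/-- The greedy choice avoids the combinations of the previous vectors. -/
theorem greedy_avoid {p : ℕ} {z : List ℕ} {V : List (List ℕ)} (hV : V.Nodup) {N : ℕ}
    (hN : (1 + N * p) ^ 5 < V.length) (i : ℕ) (hi : i < N) :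
    (greedy p z V N).getD i z ∉ comb p z ((greedy p z V N).take i) 5 := by
  classical
  have key : ∀ M ≤ N, i < M →
      (greedy p z V M).getD i z ∉ comb p z ((greedy p z V M).take i) 5 := by
    intro M
    induction M with
    | zero => intro _ h; omega
    | succ M ih =>
      intro hM hiM
      rw [greedy_succ, gstep]
      rcases Nat.lt_succ_iff_lt_or_eq.mp hiM with h | h
      · have h1 := ih (by omega) h
        have hl : i < (greedy p z V M).length := by rw [greedy_length]; exact h
        rw [List.getD_append _ _ _ _ hl, List.take_append_of_le_length hl.le]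
        exact h1
      · subst h
        have hl : (greedy p z V i).length = i := greedy_length _ _ _ _
        rw [List.getD_append_right _ _ _ _ hl.le, hl, Nat.sub_self, List.getD_cons_zero]
        rw [List.take_append_of_le_length hl.ge, List.take_of_length_le hl.le]
        rcases h : (V.filter fun v => !decide (v ∈ comb p z (greedy p z V i) 5)).head? with _ | v
        · exfalso
          rw [List.head?_eq_none_iff, List.filter_eq_nil_iff] at h
          have h2 : V ⊆ comb p z (greedy p z V i) 5 := by
            intro v hv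
            have := h v hv
            simpa using this
          have h3 := (List.subperm_of_subset hV h2).length_le
          rw [comb_length, hl] at h3
          have h4 : (1 + i * p) ^ 5 ≤ (1 + N * p) ^ 5 :=
            Nat.pow_le_pow_left (Nat.add_le_add_left (Nat.mul_le_mul_right _ hi.le) _) _
          omega
        · have h1 := List.mem_of_mem_head? h
          rw [List.mem_filter] at h1
          simpa using h1.2
  exact key N le_rfl hi

end Q224.CG
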