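import Pool.Agent.Q224.CG.Cay
import Pool.Agent.Q224.RD.Mtx

/-!
# The reduction
-/

set_option autoImplicit false

namespace Q224.CG

open Pool.Agent.NPC Pool.Agent.H633R2 Q224.RD

/-! ### The table of quotients -/

/-- The entry of the table. -/
def code (tbl : List (List ℕ)) (a b : ℕ) : ℕ := (tbl.getD a []).getD b 0

/-- The quotient of two lists. -/
def quot (tbl : List (List ℕ)) (h h' : List ℕ) : List ℕ :=
  (h.zip h').map fun q => code tbl q.1 q.2

/-- Adjacency of two lists. -/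
def relC (p : ℕ) (tbl : List (List ℕ)) (Dl : List (List ℕ)) (h h' : List ℕ) : Bool :=
  ((quot tbl h h').all fun c => decide (c < p)) &&
    (((quot tbl h h').any fun c => !decide (c = 0)) && !decide (quot tbl h h' ∈ Dl))

variable {G : Type} [Group G]

/-- The table describes the quotients which are powers of `g`. -/
def IsTable {m : ℕ} (e : Fin m ≃ G) (p : ℕ) (g : G) (tbl : List (List ℕ)) : Prop :=
  ∀ a b : Fin m, (code tbl a b < p → (e a)⁻¹ * e b = g ^ code tbl a b) ∧
    ((∃ k < p, (e a)⁻¹ * e b = g ^ k) → code tbl a b < p)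

theorem exists_table {m : ℕ} (e : Fin m ≃ G) (p : ℕ) (g : G) : ∃ tbl, IsTable e p g tbl := by
  classical
  refine ⟨List.ofFn fun a : Fin m => List.ofFn fun b : Fin m =>
    if h : ∃ k < p, (e a)⁻¹ * e b = g ^ k then h.choose else p, fun a b => ?_⟩
  have h1 : code (List.ofFn fun a : Fin m => List.ofFn fun b : Fin m =>
      if h : ∃ k < p, (e a)⁻¹ * e b = g ^ k then h.choose else p) a b =
      if h : ∃ k < p, (e a)⁻¹ * e b = g ^ k then h.choose else p := by
    unfold code
    rw [getD_eq (l := List.ofFn _) (k := (a : ℕ)) (by rw [List.length_ofFn]; exact a.2),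
      List.getElem_ofFn,
      getD_eq (l := List.ofFn _) (k := (b : ℕ)) (by rw [List.length_ofFn]; exact b.2),
      List.getElem_ofFn]
  rw [h1]
  constructor
  · intro h
    split_ifs at h ⊢ with h2
    · exact h2.choose_spec.2
    · omega
  · intro h
    rw [dif_pos h]
    exact h.choose_spec.1

/-- The element of the power of the group given by a list. -/
def elt {m : ℕ} (e : Fin m ≃ G) (n : ℕ) (h : List ℕ) : Fin n → G :=
  fun k => if hk : h.getD k 0 < m then e ⟨h.getD k 0, hk⟩ else 1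

theorem elt_eq {m : ℕ} (e : Fin m ≃ G) {n : ℕ} {h : List ℕ} (hh : Dig m n h) (k : Fin n) :
    ∃ a : Fin m, (a : ℕ) = h.getD k 0 ∧ elt e n h k = e a := by
  have h1 : h.getD k 0 < m := by
    rw [getD_eq (by rw [hh.1]; exact k.2)]
    exact hh.2 _ (List.getElem_mem _)
  exact ⟨⟨h.getD k 0, h1⟩, rfl, dif_pos h1⟩

theorem quot_getD {tbl : List (List ℕ)} {m n : ℕ} {h h' : List ℕ} (hh : Dig m n h)
    (hh' : Dig m n h') (k : Fin n) : (quot tbl h h').getD k 0 = code tbl (h.getD k 0)
      (h'.getD k 0) := by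
  have hk : (k : ℕ) < h.length := hh.1 ▸ k.2
  have hk' : (k : ℕ) < h'.length := hh'.1 ▸ k.2
  have hk2 : (k : ℕ) < ((h.zip h').map fun q => code tbl q.1 q.2).length := by
    rw [List.length_map, List.length_zip]
    exact lt_min hk hk'
  unfold quot
  rw [getD_eq hk, getD_eq hk', getD_eq hk2, List.getElem_map, List.getElem_zip]

theorem quot_length {tbl : List (List ℕ)} {m n : ℕ} {h h' : List ℕ} (hh : Dig m n h)
    (hh' : Dig m n h') : (quot tbl h h').length = n := by
  rw [quot, List.length_map, List.length_zip, hh.1, hh'.1, min_self]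

theorem relC_iff {m n p : ℕ} [NeZero p] {e : Fin m ≃ G} {g : G} (hg : orderOf g = p)
    {tbl Dl : List (List ℕ)} (ht : IsTable e p g tbl) {D : Set (Fin n → ZMod p)}
    (hDl : ∀ l, Dig p n l → (l ∈ Dl ↔ toVec p n l ∈ D)) {h h' : List ℕ} (hh : Dig m n h)
    (hh' : Dig m n h') :
    relC p tbl Dl h h' = true ↔ (elt e n h)⁻¹ * elt e n h' ∈ conn p g D := by
  have hl := quot_length (tbl := tbl) hh hh'
  have hp : 0 < p := Nat.pos_of_ne_zero (NeZero.ne p)
  have hcode : ∀ k : Fin n, ∃ a b : Fin m, elt e n h k = e a ∧ elt e n h' k = e b ∧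
      (quot tbl h h').getD k 0 = code tbl a b := by
    intro k
    obtain ⟨a, ha, ha'⟩ := elt_eq e hh k
    obtain ⟨b, hb, hb'⟩ := elt_eq e hh' k
    exact ⟨a, b, ha', hb', by rw [quot_getD hh hh', ha, hb]⟩
  rw [relC, Bool.and_eq_true, Bool.and_eq_true, List.all_eq_true, List.any_eq_true]
  simp only [decide_eq_true_eq, Bool.not_eq_true', decide_eq_false_iff_not]
  constructor
  · rintro ⟨h1, ⟨c, hc, hc0⟩, h3⟩
    have hd : Dig p n (quot tbl h h') := ⟨hl, h1⟩
    refine ⟨toVec p n (quot tbl h h'), ?_, ?_, fun k => ?_⟩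
    · intro h4
      apply hc0
      obtain ⟨i, hi, rfl⟩ := List.getElem_of_mem hc
      have h5 := congrFun h4 ⟨i, hl ▸ hi⟩
      unfold toVec at h5
      rw [getD_eq hi, Pi.zero_apply, ZMod.natCast_eq_zero_iff] at h5
      exact Nat.eq_zero_of_dvd_of_lt h5 (h1 _ (List.getElem_mem _))
    · rwa [← hDl _ hd]
    · obtain ⟨a, b, ha, hb, hab⟩ := hcode k
      have h5 : (quot tbl h h').getD k 0 < p := by
        rw [getD_eq (by rw [hl]; exact k.2)]
        exact h1 _ (List.getElem_mem _)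
      change (elt e n h k)⁻¹ * elt e n h' k = _
      rw [ha, hb, (ht a b).1 (hab ▸ h5)]
      unfold toVec
      rw [← pow_eq_val hg, hab]
  · rintro ⟨s, hs, hs', h4⟩
    have hcd : ∀ k : Fin n, (quot tbl h h').getD k 0 < p ∧
        (((quot tbl h h').getD k 0 : ℕ) : ZMod p) = s k := by
      intro k
      obtain ⟨a, b, ha, hb, hab⟩ := hcode k
      have h5 : (e a)⁻¹ * e b = g ^ (s k).val := by
        rw [← h4 k, ← ha, ← hb]
        rfl
      have h6 := (ht a b).2 ⟨_, ZMod.val_lt _, h5⟩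
      have h7 := (ht a b).1 h6
      rw [hab]
      refine ⟨h6, ?_⟩
      rw [h5, pow_eq_val hg (code tbl a b)] at h7
      exact (pow_val_inj hg h7).symm
    have h1 : ∀ x ∈ quot tbl h h', x < p := by
      intro x hx
      obtain ⟨i, hi, rfl⟩ := List.getElem_of_mem hx
      have := (hcd ⟨i, hl ▸ hi⟩).1
      rwa [getD_eq hi] at this
    have hd : Dig p n (quot tbl h h') := ⟨hl, h1⟩
    have hv : toVec p n (quot tbl h h') = s := by
      funext k
      exact (hcd k).2
    refine ⟨h1, ?_, ?_⟩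
    · by_contra hcon
      push Not at hcon
      apply hs
      rw [← hv]
      funext k
      unfold toVec
      have hk : (k : ℕ) < (quot tbl h h').length := by rw [hl]; exact k.2
      rw [getD_eq hk, hcon _ (List.getElem_mem _), Nat.cast_zero, Pi.zero_apply]
    · rw [hDl _ hd, hv]
      exact hs'

theorem elt_inj {m n : ℕ} (e : Fin m ≃ G) {h h' : List ℕ} (hh : Dig m n h) (hh' : Dig m n h')
    (he : elt e n h = elt e n h') : h = h' := by
  refine List.ext_getElem (hh.1.trans hh'.1.symm) fun k hk hk' => ?_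
  have h1 := congrFun he ⟨k, hh.1 ▸ hk⟩
  obtain ⟨a, ha, ha'⟩ := elt_eq e hh ⟨k, hh.1 ▸ hk⟩
  obtain ⟨b, hb, hb'⟩ := elt_eq e hh' ⟨k, hh.1 ▸ hk⟩
  rw [ha', hb'] at h1
  have h2 := e.injective h1
  rw [getD_eq hk] at ha
  rw [getD_eq hk'] at hb
  rw [← ha, ← hb, h2]

theorem elt_surj {m n : ℕ} (e : Fin m ≃ G) (z : Fin n → G) : ∃ h, Dig m n h ∧ elt e n h = z := by
  refine ⟨List.ofFn fun k => ((e.symm (z k) : Fin m) : ℕ), ⟨by rw [List.length_ofFn],
    fun x hx => ?_⟩, ?_⟩
  · rw [List.mem_ofFn] at hx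
    obtain ⟨k, rfl⟩ := hx
    exact (e.symm (z k)).2
  · funext k
    unfold elt
    have h1 : (List.ofFn fun k => ((e.symm (z k) : Fin m) : ℕ)).getD k 0 =
        ((e.symm (z k) : Fin m) : ℕ) := by
      rw [getD_eq (by rw [List.length_ofFn]; exact k.2), List.getElem_ofFn]
    rw [dif_pos (by rw [h1]; exact (e.symm (z k)).2)]
    have h2 : (⟨(List.ofFn fun k => ((e.symm (z k) : Fin m) : ℕ)).getD k 0,
        by rw [h1]; exact (e.symm (z k)).2⟩ : Fin m) = e.symm (z k) := Fin.ext h1
    rw [h2, Equiv.apply_symm_apply]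

/-- The matrix is the adjacency matrix of the Cayley graph. -/
theorem exists_iso {m n p : ℕ} [NeZero p] {e : Fin m ≃ G} {g : G} (hg : orderOf g = p)
    {tbl Dl : List (List ℕ)} (ht : IsTable e p g tbl) {D : Set (Fin n → ZMod p)}
    (hD : ∀ d ∈ D, -d ∈ D) (hDl : ∀ l, Dig p n l → (l ∈ Dl ↔ toVec p n l ∈ D)) :
    Nonempty (graphOf (mtxOf (vecs (List.range m) n) (relC p tbl Dl)) ≃g
      cayley (conn p g D) (conn_admissible hg hD)) := by
  have hdig : ∀ i, Dig m n (phi (vecs (List.range m) n) (relC p tbl Dl) i) :=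
    fun i => dig_vecs.mp (phi_mem _ _ i)
  have hadm := conn_admissible hg hD
  refine ⟨⟨Equiv.ofBijective (fun i => elt e n (phi (vecs (List.range m) n) (relC p tbl Dl) i))
    ⟨?_, ?_⟩, ?_⟩⟩
  · intro i j hij
    exact phi_inj (vecs_nodup List.nodup_range n) _ (elt_inj e (hdig i) (hdig j) hij)
  · intro z
    obtain ⟨h, hh, rfl⟩ := elt_surj e z
    obtain ⟨i, rfl⟩ := phi_surj (relC p tbl Dl) (dig_vecs.mpr hh)
    exact ⟨i, rfl⟩
  · intro i j
    rw [adj_mtxOf, relC_iff hg ht hDl (hdig i) (hdig j), relC_iff hg ht hDl (hdig j) (hdig i)]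
    change (elt e n (phi (vecs (List.range m) n) (relC p tbl Dl) i))⁻¹ *
      elt e n (phi (vecs (List.range m) n) (relC p tbl Dl) j) ∈ conn p g D ↔ _
    constructor
    · intro h
      refine ⟨?_, Or.inl h⟩
      rintro rfl
      apply hadm.1
      simpa using h
    · rintro ⟨-, h | h⟩
      · exact h
      · have := hadm.2 _ h
        simpa using this

/-! ### The instance -/

/-- The list of the vectors of the vertices. -/
def vx (t n : ℕ) (V Y : List (List ℕ)) (w : ℕ) : List ℕ :=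
  V.getD (w / 3) (zeroL t) ++ Y.getD w (zeroL n)

/-- The list of the differences. -/
def dl (φ : List (Lit ℕ × Lit ℕ × Lit ℕ)) (p t n N : ℕ) (V Y : List (List ℕ)) : List (List ℕ) :=
  (List.range N).flatMap fun u => ((List.range N).filter fun v => compat φ u v).map fun v =>
    subL p (vx t n V Y u) (vx t n V Y v)

/-- The instance of the colouring problem. -/
def out (m p : ℕ) (tbl : List (List ℕ)) (φ : List (Lit ℕ × Lit ℕ × Lit ℕ)) :
    List (List Bool) × ℕ :=
  (mtxOf (vecs (List.range m) ((pw p φ.length).2 + (5 * (pw p φ.length).2 + 15)))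
    (relC p tbl (dl φ p (pw p φ.length).2 (5 * (pw p φ.length).2 + 15) (3 * (pw p φ.length).1)
      (vecs (List.range p) (pw p φ.length).2)
      (greedy p (zeroL (5 * (pw p φ.length).2 + 15))
        (vecs (List.range p) (5 * (pw p φ.length).2 + 15)) (3 * (pw p φ.length).1)))),
    (vecs (List.range p) (5 * (pw p φ.length).2 + 15)).length)

theorem dig_append {p t n : ℕ} {l l' : List ℕ} (h : Dig p t l) (h' : Dig p n l') :
    Dig p (t + n) (l ++ l') := by
  refine ⟨by rw [List.length_append, h.1, h'.1], fun x hx => ?_⟩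
  rcases List.mem_append.mp hx with hx | hx
  · exact h.2 x hx
  · exact h'.2 x hx

theorem toVec_append {p t n : ℕ} {l l' : List ℕ} (h : Dig p t l) :
    toVec p (t + n) (l ++ l') = Fin.append (toVec p t l) (toVec p n l') := by
  funext k
  refine Fin.addCases (fun k => ?_) (fun k => ?_) k
  · rw [Fin.append_left]
    unfold toVec
    rw [List.getD_append _ _ _ _ (by rw [h.1]; exact k.2)]
    rfl
  · rw [Fin.append_right]
    unfold toVec
    rw [List.getD_append_right _ _ _ _ (by rw [h.1]; simp)]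
    congr 2
    rw [h.1]
    simp

theorem bound_aux {p t P : ℕ} (hp : 2 ≤ p) (hP : P = p ^ t) :
    (1 + 3 * P * p) ^ 5 < p ^ (5 * t + 15) := by
  have h1 : 1 + 3 * P * p < p ^ (t + 3) := by
    have h2 : 1 ≤ p ^ t := Nat.one_le_pow _ _ (by omega)
    have h3 : p ^ (t + 3) = p ^ t * p * (p * p) := by ring
    have h4 : 4 ≤ p * p := by nlinarith
    have h5 : p ^ t * p * 4 ≤ p ^ t * p * (p * p) := Nat.mul_le_mul_left _ h4
    have h6 : 2 ≤ p ^ t * p := by nlinarith
    have h7 : 3 * P * p = 3 * (p ^ t * p) := by rw [hP]; ring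
    rw [h3, h7]
    omega
  calc (1 + 3 * P * p) ^ 5 < (p ^ (t + 3)) ^ 5 := Nat.pow_lt_pow_left h1 (by norm_num)
    _ = p ^ (5 * t + 15) := by rw [← pow_mul]; congr 1; ring

/-- Correctness of the reduction. -/
theorem out_spec [Finite G] {m p : ℕ} [Fact p.Prime] {e : Fin m ≃ G} {g : G}
    (hg : orderOf g = p) {tbl : List (List ℕ)} (ht : IsTable e p g tbl)
    (φ : List (Lit ℕ × Lit ℕ × Lit ℕ)) :
    (∃ n, 1 ≤ n ∧ ∃ (C : Set (Fin n → G)) (hC : Admissible C),
      Nonempty (graphOf (out m p tbl φ).1 ≃g cayley C hC)) ∧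
    (SAT3 φ ↔ (graphOf (out m p tbl φ).1).Colorable (out m p tbl φ).2) := by
  classical
  have hpp : p.Prime := Fact.out
  have hp := hpp.pos
  obtain ⟨t, ht0⟩ : ∃ t, t = (pw p φ.length).2 := ⟨_, rfl⟩
  obtain ⟨P, hP0⟩ : ∃ P, P = (pw p φ.length).1 := ⟨_, rfl⟩
  obtain ⟨n, hn0⟩ : ∃ n, n = 5 * t + 15 := ⟨_, rfl⟩
  have hP : P = p ^ t := by rw [hP0, ht0]; exact pw_eq _ _
  have hge := pw_ge p φ.length hpp.two_le
  rw [← hP0] at hge
  obtain ⟨V, hV⟩ : ∃ V, V = vecs (List.range p) t := ⟨_, rfl⟩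
  obtain ⟨Y, hY⟩ : ∃ Y, Y = greedy p (zeroL n) (vecs (List.range p) n) (3 * P) := ⟨_, rfl⟩
  have hout : out m p tbl φ = (mtxOf (vecs (List.range m) (t + n))
      (relC p tbl (dl φ p t n (3 * P) V Y)), (vecs (List.range p) n).length) := by
    rw [out, ← ht0, ← hP0, ← hn0, ← hV, ← hY]
  have hVl : V.length = P := by rw [hV, vecs_length, List.length_range, hP]
  have hYl : Y.length = 3 * P := by rw [hY, greedy_length]
  have hVd : ∀ w, Dig p t (V.getD w (zeroL t)) := by
    intro w
    by_cases hw : w < V.length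
    · rw [getD_eq hw]
      exact dig_vecs.mp (hV ▸ List.getElem_mem _)
    · rw [List.getD_eq_default _ _ (by omega)]
      exact dig_zeroL hp t
  have hYd : ∀ w, Dig p n (Y.getD w (zeroL n)) := by
    intro w
    by_cases hw : w < Y.length
    · rw [getD_eq hw]
      refine dig_vecs.mp (greedy_mem (p := p) (z := zeroL n) (dig_vecs.mpr (dig_zeroL hp n))
        (3 * P) _ ?_)
      rw [← hY]
      exact List.getElem_mem _
    · rw [List.getD_eq_default _ _ (by omega)]
      exact dig_zeroL hp n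
  have hvd : ∀ w, Dig p (t + n) (vx t n V Y w) := fun w => dig_append (hVd _) (hYd _)
  obtain ⟨a, ha⟩ : ∃ a : Fin (3 * P) → (Fin t → ZMod p),
      ∀ i, a i = toVec p t (V.getD ((i : ℕ) / 3) (zeroL t)) := ⟨_, fun _ => rfl⟩
  obtain ⟨y, hy⟩ : ∃ y : Fin (3 * P) → (Fin n → ZMod p),
      y = fun i : Fin (3 * P) => toVec p n (Y.getD (i : ℕ) (zeroL n)) := ⟨_, rfl⟩
  have hvx : ∀ i : Fin (3 * P), toVec p (t + n) (vx t n V Y i) = Fin.append (a i) (y i) := by
    intro i
    rw [vx, toVec_append (hVd _), ha, hy]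
  have hind : Ind6 p y := by
    rw [hy, hY]
    exact ind6_greedy (dig_zeroL hp n) (toVec_zeroL p n)
      (by rw [hn0]; exact bound_aux hpp.two_le hP)
  have hDl : ∀ l, Dig p (t + n) l → (l ∈ dl φ p t n (3 * P) V Y ↔
      toVec p (t + n) l ∈ diffs φ fun i => Fin.append (a i) (y i)) := by
    intro l hl
    rw [dl, List.mem_flatMap]
    constructor
    · rintro ⟨u, hu, h⟩
      rw [List.mem_map] at h
      obtain ⟨v, hv, rfl⟩ := h
      rw [List.mem_filter, List.mem_range] at hv
      rw [List.mem_range] at hu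
      refine ⟨⟨u, hu⟩, ⟨v, hv.1⟩, hv.2, ?_⟩
      rw [toVec_subL (hvd u) (hvd v)]
      have h1 := hvx ⟨u, hu⟩
      have h2 := hvx ⟨v, hv.1⟩
      simp only at h1 h2
      rw [h1, h2]
    · rintro ⟨u, v, huv, h⟩
      refine ⟨u, List.mem_range.mpr u.2, ?_⟩
      rw [List.mem_map]
      refine ⟨v, List.mem_filter.mpr ⟨List.mem_range.mpr v.2, huv⟩, ?_⟩
      refine toVec_inj (dig_subL hp (hvd u) (hvd v)) hl ?_
      rw [toVec_subL (hvd u) (hvd v), hvx, hvx, h]
  have hneg := diffs_neg (φ := φ) (x := fun i => Fin.append (a i) (y i))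
  obtain ⟨iso⟩ := exists_iso hg ht hneg hDl
  rw [hout]
  refine ⟨⟨t + n, by omega, _, conn_admissible hg hneg, ⟨iso⟩⟩, ?_⟩
  have h1 : (graphOf (mtxOf (vecs (List.range m) (t + n))
      (relC p tbl (dl φ p t n (3 * P) V Y)))).Colorable (vecs (List.range p) n).length ↔
      (cayley (conn p g (diffs φ fun i => Fin.append (a i) (y i)))
        (conn_admissible hg hneg)).Colorable (vecs (List.range p) n).length :=
    ⟨fun h => h.of_hom iso.symm.toHom, fun h => h.of_hom iso.toHom⟩
  rw [h1, cayley_colorable_iff hg hneg, vecs_length, List.length_range]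
  symm
  refine colorable_iff hP (by omega) (by omega) rfl a y hind ?_ ?_
  · intro u v
    constructor
    · intro h
      rw [ha, ha, h]
    · intro h
      rw [ha, ha] at h
      have h2 := toVec_inj (hVd _) (hVd _) h
      have hu : (u : ℕ) / 3 < V.length := by rw [hVl]; have := u.2; omega
      have hv : (v : ℕ) / 3 < V.length := by rw [hVl]; have := v.2; omega
      rw [getD_eq hu, getD_eq hv] at h2
      exact ((hV ▸ vecs_nodup List.nodup_range t : V.Nodup).getElem_inj_iff).mp h2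
  · intro z
    have h2 : ofVec z ∈ V := by
      rw [hV]
      exact dig_vecs.mpr (dig_ofVec z)
    obtain ⟨i, hi, h3⟩ := List.getElem_of_mem h2
    refine ⟨⟨3 * i, by omega⟩, ?_⟩
    rw [ha]
    have h4 : ((⟨3 * i, by omega⟩ : Fin (3 * P)) : ℕ) / 3 = i := by
      change 3 * i / 3 = i
      omega
    rw [h4, getD_eq hi, h3, toVec_ofVec]

end Q224.CG
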