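import Pool.Agent.Q224.CG.Struct
import Pool.Agent.Q224.CG.Lists
import Pool.Agent.NPC.Sat

/-!
# Colourings and satisfying assignments
-/

set_option autoImplicit false

namespace Q224.CG

open Pool.Agent.NPC

variable {p : ℕ} [Fact p.Prime]

/-- The greedily chosen vectors satisfy the independence condition. -/
theorem ind6_greedy {n N : ℕ} {z : List ℕ} (hz : Dig p n z) (hz0 : toVec p n z = 0)
    (hN : (1 + N * p) ^ 5 < p ^ n) :
    Ind6 p (fun i : Fin N => toVec p n ((greedy p z (vecs (List.range p) n) N).getD i z)) := by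
  classical
  have hp : 0 < p := (Fact.out : p.Prime).pos
  set Y := greedy p z (vecs (List.range p) n) N with hY
  have hYl : Y.length = N := greedy_length _ _ _ _
  have hYd : ∀ l ∈ Y, Dig p n l := fun l hl =>
    dig_vecs.mp (greedy_mem (dig_vecs.mpr hz) N l hl)
  intro f hf hs
  by_contra hne
  have hsup : (Finset.univ.filter fun w => f w ≠ 0).Nonempty := by
    rw [Finset.filter_nonempty_iff]
    by_contra hc
    push Not at hc
    exact hne (funext fun w => hc w (Finset.mem_univ w))
  obtain ⟨i, hi⟩ : ∃ i, i = (Finset.univ.filter fun w => f w ≠ 0).max' hsup := ⟨_, rfl⟩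
  have hi0 : f i ≠ 0 := by
    have := Finset.max'_mem _ hsup
    rw [← hi, Finset.mem_filter] at this
    exact this.2
  have hmax : ∀ j, f j ≠ 0 → j ≤ i := by
    intro j hj
    rw [hi]
    exact Finset.le_max' _ _ (by simp [hj])
  have hav := greedy_avoid (p := p) (z := z) (V := vecs (List.range p) n)
    (vecs_nodup List.nodup_range n) (N := N) (by rw [vecs_length, List.length_range]; exact hN)
    i i.2
  rw [← hY] at hav
  apply hav
  have hTl : (Y.take i).length = i := by
    rw [List.length_take, hYl]
    omega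
  -- the combination
  obtain ⟨e, he0⟩ : ∃ e : Fin (Y.take i).length → Fin N, ∀ w, (e w : ℕ) = w :=
    ⟨fun w => ⟨w, by have := w.2; have := i.2; omega⟩, fun _ => rfl⟩
  have hei : Function.Injective e := fun a b h => Fin.ext (by rw [← he0, ← he0, h])
  have helt : ∀ w, e w < i := fun w => by
    rw [Fin.lt_def, he0]
    exact w.2.trans_eq hTl
  obtain ⟨l, hl, he⟩ := exists_comb hz hz0 (S := Y.take i)
    (fun s hs => hYd s (List.mem_of_mem_take hs)) 5 (fun w => -(f i)⁻¹ * f (e w)) (by
      have h1 : ((Finset.univ.filter fun w : Fin (Y.take i).length =>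
          -(f i)⁻¹ * f (e w) ≠ 0).image e) ⊆ (Finset.univ.filter fun w => f w ≠ 0).erase i := by
        intro v hv
        rw [Finset.mem_image] at hv
        obtain ⟨w, hw, rfl⟩ := hv
        rw [Finset.mem_filter] at hw
        rw [Finset.mem_erase, Finset.mem_filter]
        exact ⟨(helt w).ne, Finset.mem_univ _, (mul_ne_zero_iff.mp hw.2).2⟩
      have h2 := Finset.card_le_card h1
      rw [Finset.card_image_of_injective _ hei, Finset.card_erase_of_mem (by simp [hi0])] at h2
      omega)
  have hgi : Y.getD i z = Y[(i : ℕ)]'(by rw [hYl]; exact i.2) := getD_eq _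
  have hl' : Dig p n l := dig_comb hp hz (fun s hs => hYd s (List.mem_of_mem_take hs)) 5 l hl
  have : l = Y.getD i z := by
    refine toVec_inj hl' (by rw [hgi]; exact hYd _ (List.getElem_mem _)) ?_
    rw [he]
    -- compare with the relation
    have h1 : ∑ w : Fin (Y.take i).length, (-(f i)⁻¹ * f (e w)) •
        toVec p n (Y.take i)[w] = ∑ w ∈ (Finset.univ : Finset (Fin N)).erase i,
          (-(f i)⁻¹ * f w) • toVec p n (Y.getD w z) := by
      have h2 : ∀ w ∈ (Finset.univ : Finset (Fin N)).erase i, w ∉ (Finset.univ.filter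
          fun w : Fin N => w < i) → (-(f i)⁻¹ * f w) • toVec p n (Y.getD w z) = 0 := by
        intro w hw hw'
        have h3 : f w = 0 := by
          by_contra h4
          have h5 := hmax w h4
          have h6 := Finset.ne_of_mem_erase hw
          apply hw'
          rw [Finset.mem_filter]
          exact ⟨Finset.mem_univ _, lt_of_le_of_ne h5 h6⟩
        rw [h3, mul_zero, zero_smul]
      rw [← Finset.sum_subset (s₁ := Finset.univ.filter fun w : Fin N => w < i) (by
        intro w hw
        rw [Finset.mem_filter] at hw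
        rw [Finset.mem_erase]
        exact ⟨hw.2.ne, Finset.mem_univ _⟩) h2]
      refine Finset.sum_bij (fun w _ => e w) ?_ ?_ ?_ ?_
      · intro w _
        rw [Finset.mem_filter]
        exact ⟨Finset.mem_univ _, helt w⟩
      · intro a _ b _ h
        exact hei h
      · intro b hb
        rw [Finset.mem_filter] at hb
        exact ⟨⟨b, by rw [hTl]; exact hb.2⟩, Finset.mem_univ _, Fin.ext (he0 _)⟩
      · intro w _
        have h4 : (Y.take i)[w] = Y.getD (e w) z := by
          rw [he0, getD_eq (by rw [hYl, ← he0]; exact (e w).2)]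
          simp
        rw [h4]
    rw [h1]
    have h2 := hs
    rw [← Finset.add_sum_erase _ _ (Finset.mem_univ i)] at h2
    have h3 : ∑ w ∈ (Finset.univ : Finset (Fin N)).erase i,
          (-(f i)⁻¹ * f w) • toVec p n (Y.getD w z) =
        -(f i)⁻¹ • ∑ w ∈ (Finset.univ : Finset (Fin N)).erase i, f w • toVec p n (Y.getD w z) := by
      rw [Finset.smul_sum]
      refine Finset.sum_congr rfl fun w _ => ?_
      rw [mul_smul]
    rw [h3, eq_neg_of_add_eq_zero_right h2, neg_smul, smul_neg, neg_neg, smul_smul,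
      inv_mul_cancel₀ hi0, one_smul]
  rw [← this]
  exact hl

/-- Adding coordinates keeps the independence condition. -/
theorem Ind6.append {ι : Type*} [Fintype ι] [DecidableEq ι] {t n : ℕ} {a : ι → (Fin t → ZMod p)}
    {y : ι → (Fin n → ZMod p)} (hy : Ind6 p y) : Ind6 p (fun i => Fin.append (a i) (y i)) := by
  intro f hf hs
  refine hy f hf ?_
  funext k
  have := congrFun hs (Fin.natAdd t k)
  simpa [Finset.sum_apply] using this

/-! ### The conflict relation -/

/-- The literal of a vertex. -/
def litAt (φ : List (Lit ℕ × Lit ℕ × Lit ℕ)) (w : ℕ) : Lit ℕ :=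
  ((φ.map fun c => [(c.1.1, c.1.2 + 1), (c.2.1.1, c.2.1.2 + 1), (c.2.2.1, c.2.2.2 + 1)]).getD
    (w / 3) []).getD (w % 3) (true, 0)

/-- Compatible vertices in different parts. -/
def compat (φ : List (Lit ℕ × Lit ℕ × Lit ℕ)) (u v : ℕ) : Bool :=
  !decide (u / 3 = v / 3) &&
    !(decide ((litAt φ u).2 = (litAt φ v).2) && !decide ((litAt φ u).1 = (litAt φ v).1))

theorem compat_iff {φ : List (Lit ℕ × Lit ℕ × Lit ℕ)} {u v : ℕ} : compat φ u v = true ↔
    u / 3 ≠ v / 3 ∧ ((litAt φ u).2 = (litAt φ v).2 → (litAt φ u).1 = (litAt φ v).1) := by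
  simp only [compat, Bool.and_eq_true, Bool.not_eq_true', decide_eq_false_iff_not,
    Bool.and_eq_false_iff, Bool.not_eq_false', decide_eq_true_eq, ne_eq]
  tauto

theorem compat_symm {φ : List (Lit ℕ × Lit ℕ × Lit ℕ)} {u v : ℕ} (h : compat φ u v = true) :
    compat φ v u = true := by
  rw [compat_iff] at *
  exact ⟨fun h' => h.1 h'.symm, fun h' => (h.2 h'.symm).symm⟩

theorem litAt_ge {φ : List (Lit ℕ × Lit ℕ × Lit ℕ)} {w : ℕ} (h : φ.length ≤ w / 3) :
    litAt φ w = (true, 0) := by
  unfold litAt
  rw [List.getD_eq_default (l := φ.map _) (n := w / 3) _ (by rw [List.length_map]; exact h)]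
  rfl

theorem litAt_lt {φ : List (Lit ℕ × Lit ℕ × Lit ℕ)} {i r : ℕ} (hi : i < φ.length) (hr : r < 3) :
    litAt φ (3 * i + r) = [(φ[i].1.1, φ[i].1.2 + 1), (φ[i].2.1.1, φ[i].2.1.2 + 1),
      (φ[i].2.2.1, φ[i].2.2.2 + 1)].getD r (true, 0) := by
  unfold litAt
  have h1 : (3 * i + r) / 3 = i := by omega
  have h2 : (3 * i + r) % 3 = r := by omega
  rw [h1, h2, getD_eq (l := φ.map _) (k := i) (by rw [List.length_map]; exact hi),
    List.getElem_map]

/-- One compatible vertex in each part. -/
theorem sat_iff_parts {φ : List (Lit ℕ × Lit ℕ × Lit ℕ)} {P : ℕ} (hP : φ.length ≤ P) :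
    SAT3 φ ↔ ∃ w : ℕ → ℕ, ∀ i < P, w i / 3 = i ∧ ∀ j < P, i ≠ j → compat φ (w i) (w j) = true := by
  constructor
  · rintro ⟨τ, hτ⟩
    have h : ∀ i, ∃ w, w / 3 = i ∧ (litAt φ w).1 = (Nat.casesOn (litAt φ w).2 true τ : Bool) := by
      intro i
      by_cases hi : i < φ.length
      · rcases hτ φ[i] (List.getElem_mem _) with h | h | h
        · refine ⟨3 * i + 0, by omega, ?_⟩
          rw [litAt_lt hi (by omega)]
          exact h.symm
        · refine ⟨3 * i + 1, by omega, ?_⟩
          rw [litAt_lt hi (by omega)]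
          exact h.symm
        · refine ⟨3 * i + 2, by omega, ?_⟩
          rw [litAt_lt hi (by omega)]
          exact h.symm
      · refine ⟨3 * i, by omega, ?_⟩
        rw [litAt_ge (by omega)]
        rfl
    choose w hw1 hw2 using h
    refine ⟨w, fun i _ => ⟨hw1 i, fun j _ hij => ?_⟩⟩
    rw [compat_iff]
    refine ⟨by rw [hw1, hw1]; exact hij, fun h => ?_⟩
    rw [hw2 i, hw2 j, h]
  · rintro ⟨w, hw⟩
    classical
    refine ⟨fun v => decide (∃ i < P, litAt φ (w i) = (true, v + 1)), fun c hc => ?_⟩
    obtain ⟨i, hi, rfl⟩ := List.getElem_of_mem hc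
    have hiP : i < P := hi.trans_le hP
    have key : ∀ b v, litAt φ (w i) = (b, v + 1) →
        (decide (∃ i < P, litAt φ (w i) = (true, v + 1)) : Bool) = b := by
      intro b v h
      cases b with
      | true =>
        rw [decide_eq_true_eq]
        exact ⟨i, hiP, h⟩
      | false =>
        rw [decide_eq_false_iff_not]
        rintro ⟨j, hj, h'⟩
        have hij : i ≠ j := by
          rintro rfl
          rw [h] at h'
          simp at h'
        have h2 := (compat_iff.mp ((hw i hiP).2 j hj hij)).2 (by rw [h, h'])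
        rw [h, h'] at h2
        exact Bool.false_ne_true h2
    have hw3 : w i = 3 * i + w i % 3 := by have := (hw i hiP).1; omega
    have hr : w i % 3 < 3 := Nat.mod_lt _ (by omega)
    have hl := litAt_lt (φ := φ) hi hr
    rw [← hw3] at hl
    obtain h | h | h : w i % 3 = 0 ∨ w i % 3 = 1 ∨ w i % 3 = 2 := by omega
    · rw [h] at hl
      exact Or.inl (key _ _ hl)
    · rw [h] at hl
      exact Or.inr (Or.inl (key _ _ hl))
    · rw [h] at hl
      exact Or.inr (Or.inr (key _ _ hl))

/-! ### The graph on the vectors -/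

/-- The graph on the vectors in which `v` and `v'` are adjacent unless their difference is in `D`. -/
def XD {W : Type*} [AddCommGroup W] (D : Set W) (hD : ∀ d ∈ D, -d ∈ D) : SimpleGraph W where
  Adj v v' := v ≠ v' ∧ v' - v ∉ D
  symm := ⟨fun v v' h => ⟨h.1.symm, fun h' => h.2 (by rw [← neg_sub]; exact hD _ h')⟩⟩
  loopless := ⟨fun v h => h.1 rfl⟩

/-- The differences of the vectors of compatible vertices. -/
def diffs (φ : List (Lit ℕ × Lit ℕ × Lit ℕ)) {n N : ℕ} (x : Fin N → (Fin n → ZMod p)) :
    Set (Fin n → ZMod p) := {d | ∃ u v : Fin N, compat φ u v = true ∧ d = x u - x v}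

theorem diffs_neg {φ : List (Lit ℕ × Lit ℕ × Lit ℕ)} {n N : ℕ} {x : Fin N → (Fin n → ZMod p)} :
    ∀ d ∈ diffs φ x, -d ∈ diffs φ x := by
  rintro d ⟨u, v, h, rfl⟩
  exact ⟨v, u, compat_symm h, by rw [neg_sub]⟩

/-- The graph of the vectors can be coloured with few colours if and only if the formula is
satisfiable. -/
theorem colorable_iff {φ : List (Lit ℕ × Lit ℕ × Lit ℕ)} {t n P N : ℕ} (hP : P = p ^ t)
    (hφ : φ.length ≤ P) (h8 : 8 ≤ P) (hN : N = 3 * P) (a : Fin N → (Fin t → ZMod p))
    (y : Fin N → (Fin n → ZMod p)) (hy : Ind6 p y)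
    (ha : ∀ u v : Fin N, (u : ℕ) / 3 = (v : ℕ) / 3 ↔ a u = a v)
    (hs : ∀ z : Fin t → ZMod p, ∃ u, a u = z) :
    (XD (diffs φ fun i => Fin.append (a i) (y i)) diffs_neg).Colorable (p ^ n) ↔ SAT3 φ := by
  classical
  rw [sat_iff_parts hφ]
  have hcard : Fintype.card (Fin n → ZMod p) = p ^ n := by
    rw [Fintype.card_fun, ZMod.card, Fintype.card_fin]
  have hcard' : Fintype.card (Fin (t + n) → ZMod p) = p ^ n * p ^ t := by
    rw [Fintype.card_fun, ZMod.card, Fintype.card_fin, pow_add, mul_comm]
  constructor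
  · rintro ⟨c⟩
    obtain ⟨k, hk⟩ : ∃ k : Fin (p ^ n), p ^ t ≤
        (Finset.univ.filter fun v : Fin (t + n) → ZMod p => c v = k).card := by
      have h1 := Finset.exists_le_card_fiber_of_mul_le_card_of_maps_to (s := Finset.univ)
        (t := (Finset.univ : Finset (Fin (p ^ n)))) (f := c) (n := p ^ t)
        (fun _ _ => Finset.mem_univ _) ⟨⟨0, pow_pos (Fact.out : p.Prime).pos _⟩, Finset.mem_univ _⟩
        (by rw [Finset.card_univ, Finset.card_univ, Fintype.card_fin, hcard'])
      obtain ⟨k, -, hk⟩ := h1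
      exact ⟨k, hk⟩
    obtain ⟨K, hK1, hK2⟩ := clique (hy.append (a := a)) (E := fun u v => compat φ u v = true)
      (fun u v h => by
        rintro rfl
        exact (compat_iff.mp h).1 rfl) (fun u v h => compat_symm h)
      (S := Finset.univ.filter fun v : Fin (t + n) → ZMod p => c v = k)
      (by omega) (by
        intro s hs' s' hs'' hne
        rw [Finset.mem_filter] at hs' hs''
        by_contra hcon
        have hadj : (XD (diffs φ fun i => Fin.append (a i) (y i)) diffs_neg).Adj s' s := by
          refine ⟨hne.symm, ?_⟩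
          rintro ⟨u, v, h, he⟩
          exact hcon ⟨u, v, h, he⟩
        exact c.valid hadj (hs''.2.trans hs'.2.symm))
    have hinj : Set.InjOn (fun u : Fin N => (u : ℕ) / 3) K := by
      intro u hu v hv h
      by_contra hne
      exact (compat_iff.mp (hK2 u hu v hv hne)).1 h
    have himg : K.image (fun u : Fin N => (u : ℕ) / 3) = Finset.range P := by
      refine Finset.eq_of_subset_of_card_le ?_ ?_
      · intro i hi
        rw [Finset.mem_image] at hi
        obtain ⟨u, -, rfl⟩ := hi
        rw [Finset.mem_range]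
        have := u.2
        omega
      · rw [Finset.card_range, Finset.card_image_of_injOn hinj]
        omega
    have hex : ∀ i, i < P → ∃ u ∈ K, (u : ℕ) / 3 = i := by
      intro i hi
      rw [← Finset.mem_range, ← himg, Finset.mem_image] at hi
      exact hi
    refine ⟨fun i => if h : i < P then ((hex i h).choose : ℕ) else 0, fun i hi => ?_⟩
    have h1 := (hex i hi).choose_spec
    refine ⟨by simp only [dif_pos hi]; exact h1.2, fun j hj hij => ?_⟩
    have h2 := (hex j hj).choose_spec
    simp only [dif_pos hi, dif_pos hj]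
    refine hK2 _ h1.1 _ h2.1 ?_
    intro he
    apply hij
    rw [← h1.2, ← h2.2, he]
  · rintro ⟨w, hw⟩
    choose g hg using hs
    have hgP : ∀ z, (g z : ℕ) / 3 < P := fun z => by have := (g z).2; omega
    have hwN : ∀ z, w ((g z : ℕ) / 3) < N := fun z => by
      have := (hw _ (hgP z)).1
      have := hgP z
      omega
    -- the chosen vertex of a part
    obtain ⟨b, hb⟩ : ∃ b : (Fin t → ZMod p) → Fin N, ∀ z, b z = ⟨w ((g z : ℕ) / 3), hwN z⟩ :=
      ⟨_, fun _ => rfl⟩
    have hab : ∀ z, a (b z) = z := by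
      intro z
      rw [(ha (b z) (g z)).mp, hg]
      rw [hb]
      exact (hw _ (hgP z)).1
    have hcomp : ∀ z z', z ≠ z' → compat φ (b z) (b z') = true := by
      intro z z' hne
      rw [hb, hb]
      refine (hw _ (hgP z)).2 _ (hgP z') ?_
      intro h
      exact hne (by rw [← hg z, ← hg z']; exact (ha _ _).mp h)
    have hcol : (XD (diffs φ fun i => Fin.append (a i) (y i)) diffs_neg).Coloring
        (Fin n → ZMod p) := by
      refine SimpleGraph.Coloring.mk (fun v => (fun k => v (Fin.natAdd t k)) -
        y (b fun k => v (Fin.castAdd n k))) ?_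
      intro v v' hadj he
      apply hadj.2
      have hne : (fun k => v (Fin.castAdd n k)) ≠ fun k => v' (Fin.castAdd n k) := by
        intro h
        apply hadj.1
        rw [h] at he
        have h2 := sub_left_injective he
        funext k
        refine Fin.addCases (fun k => ?_) (fun k => ?_) k
        · exact congrFun h k
        · exact congrFun h2 k
      refine ⟨b fun k => v' (Fin.castAdd n k), b fun k => v (Fin.castAdd n k),
        hcomp _ _ hne.symm, ?_⟩
      funext k
      refine Fin.addCases (fun k => ?_) (fun k => ?_) k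
      · simp only [Pi.sub_apply, Fin.append_left, hab]
      · have h3 := congrFun he k
        simp only [Pi.sub_apply, Fin.append_right] at h3 ⊢
        linear_combination -h3
    have := hcol.colorable
    rwa [hcard] at this

end Q224.CG
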