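import Mathlib

/-!
# Sets with few differences
-/

set_option autoImplicit false

namespace Q224.CG

variable {ι W : Type*} [DecidableEq ι] [Fintype ι] [AddCommGroup W] {p : ℕ} [Module (ZMod p) W]

/-- Any six of the vectors are linearly independent. -/
def Ind6 (p : ℕ) [Module (ZMod p) W] (x : ι → W) : Prop :=
  ∀ f : ι → ZMod p, (Finset.univ.filter fun w => f w ≠ 0).card ≤ 6 → ∑ w, f w • x w = 0 → f = 0

theorem formal6 {x : ι → W} (hx : Ind6 p x) {u v u' v' a b : ι}
    (h : x u - x v - (x u' - x v') = x a - x b) (w : ι) :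
    ((Pi.single u 1 - Pi.single v 1 - (Pi.single u' 1 - Pi.single v' 1) -
      (Pi.single a 1 - Pi.single b 1) : ι → ZMod p) w) = 0 := by
  have key := hx (Pi.single u 1 - Pi.single v 1 - (Pi.single u' 1 - Pi.single v' 1) -
    (Pi.single a 1 - Pi.single b 1)) ?_ ?_
  · exact congrFun key w
  · refine le_trans (Finset.card_le_card (t := {u, v, u', v', a, b}) ?_) Finset.card_le_six
    intro c hc
    rw [Finset.mem_filter] at hc
    by_contra hcon
    simp only [Finset.mem_insert, Finset.mem_singleton, not_or] at hcon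
    apply hc.2
    simp [hcon]
  · simp only [Pi.sub_apply, sub_smul, Finset.sum_sub_distrib, Pi.single_apply, ite_smul, one_smul,
      zero_smul, Finset.sum_ite_eq', Finset.mem_univ, if_true]
    rw [h, sub_self]

variable [Fact p.Prime]

/-- The supports of two elements intersect. -/
theorem supports {x : ι → W} (hx : Ind6 p x) {u v u' v' a b : ι} (huv : u ≠ v) (huv' : u' ≠ v')
    (h : x u - x v - (x u' - x v') = x a - x b) :
    u = u' ∨ u = v' ∨ v = u' ∨ v = v' := by
  by_contra hcon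
  push Not at hcon
  obtain ⟨h1, h2, h3, h4⟩ := hcon
  have hu := formal6 hx h u
  have hv := formal6 hx h v
  have hu' := formal6 hx h u'
  simp only [Pi.sub_apply, Pi.single_apply, if_true, if_neg huv, if_neg h1, if_neg h2,
    sub_zero] at hu
  simp only [Pi.sub_apply, Pi.single_apply, if_true, if_neg huv.symm, if_neg h3, if_neg h4,
    sub_zero, zero_sub] at hv
  simp only [Pi.sub_apply, Pi.single_apply, if_true, if_neg h1.symm, if_neg h3.symm, if_neg huv',
    sub_zero, zero_sub] at hu'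
  have e1 : u = a ∨ u = b := by
    by_contra hc
    push Not at hc
    rw [if_neg hc.1, if_neg hc.2, sub_zero, sub_zero] at hu
    exact one_ne_zero hu
  have e2 : v = a ∨ v = b := by
    by_contra hc
    push Not at hc
    rw [if_neg hc.1, if_neg hc.2, sub_zero, sub_zero, neg_eq_zero] at hv
    exact one_ne_zero hv
  have e3 : u' = a ∨ u' = b := by
    by_contra hc
    push Not at hc
    rw [if_neg hc.1, if_neg hc.2, sub_zero, sub_zero, neg_eq_zero] at hu'
    exact one_ne_zero hu'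
  rcases e1 with e1 | e1 <;> rcases e2 with e2 | e2 <;> rcases e3 with e3 | e3 <;>
    simp_all

/-- The signs agree if `p` is odd. -/
theorem signs {x : ι → W} (hx : Ind6 p x) (hp : p ≠ 2) {z w w' a b : ι} (hzw : z ≠ w)
    (hzw' : z ≠ w') (hww : w ≠ w') :
    x z - x w - (x w' - x z) ≠ x a - x b := by
  intro h
  have h2 : (2 : ZMod p) ≠ 0 := by
    have h3 : ((2 : ℕ) : ZMod p) ≠ 0 := by
      rw [Ne, ZMod.natCast_eq_zero_iff]
      intro h4
      have h5 := (Nat.prime_dvd_prime_iff_eq (Fact.out : p.Prime) Nat.prime_two).mp h4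
      exact hp h5
    exact_mod_cast h3
  have e1 : ∀ c : ι, z ≠ c → (c = w ∨ c = w') → c = b := by
    intro c hzc hc
    have h1 := formal6 hx h c
    have h5 : ((if c = w then (1 : ZMod p) else 0) + (if c = w' then 1 else 0)) = 1 := by
      rcases hc with rfl | rfl
      · rw [if_pos rfl, if_neg hww, add_zero]
      · rw [if_neg hww.symm, if_pos rfl, zero_add]
    simp only [Pi.sub_apply, Pi.single_apply, if_neg hzc.symm] at h1
    by_contra hcb
    rw [if_neg hcb] at h1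
    by_cases hca : c = a
    · rw [if_pos hca] at h1
      apply h2
      linear_combination (-1 : ZMod p) * h1 - h5
    · rw [if_neg hca] at h1
      have : (1 : ZMod p) = 0 := by linear_combination (-1 : ZMod p) * h1 - h5
      exact one_ne_zero this
  exact hww ((e1 w hzw (Or.inl rfl)).trans (e1 w' hzw' (Or.inr rfl)).symm)

/-- Differences have a unique representation. -/
theorem unique_rep {x : ι → W} (hx : Ind6 p x) {u v a b : ι} (huv : u ≠ v) (hab : a ≠ b)
    (h : x u - x v = x a - x b) : (u = a ∧ v = b) ∨ (u = b ∧ v = a) := by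
  have h' : x u - x v - (x u - x u) = x a - x b := by rw [sub_self, sub_zero]; exact h
  have hu := formal6 hx h' u
  have hv := formal6 hx h' v
  simp only [Pi.sub_apply, Pi.single_apply, if_true, if_neg huv, sub_self, sub_zero] at hu
  simp only [Pi.sub_apply, Pi.single_apply, if_true, if_neg huv.symm, sub_self, sub_zero,
    zero_sub] at hv
  have e1 : u = a ∨ u = b := by
    by_contra hc
    push Not at hc
    rw [if_neg hc.1, if_neg hc.2, sub_zero, sub_zero] at hu
    exact one_ne_zero hu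
  have e2 : v = a ∨ v = b := by
    by_contra hc
    push Not at hc
    rw [if_neg hc.1, if_neg hc.2, sub_zero, sub_zero, neg_eq_zero] at hv
    exact one_ne_zero hv
  rcases e1 with e1 | e1 <;> rcases e2 with e2 | e2 <;> simp_all

theorem tri {α : Type*} {u v c a b : α} (huv : u ≠ v) (hcu : c ≠ u) (hcv : c ≠ v)
    (h1 : a = u ∨ a = v ∨ b = u ∨ b = v) (h2 : a = v ∨ a = c ∨ b = v ∨ b = c)
    (h3 : a = u ∨ a = c ∨ b = u ∨ b = c) :
    (a = u ∧ b = v) ∨ (a = v ∧ b = u) ∨ (a = v ∧ b = c) ∨ (a = c ∧ b = v) ∨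
        (a = u ∧ b = c) ∨ (a = c ∧ b = u) := by
  grind

/-- The star lemma. -/
theorem star {x : ι → W} (hx : Ind6 p x) {E : ι → ι → Prop} (hE : ∀ u v, E u v → u ≠ v)
    {S : Finset W} (hS : 7 ≤ S.card) (h1 : ∀ s ∈ S, ∃ u v, E u v ∧ s = x u - x v)
    (h2 : ∀ s ∈ S, ∀ s' ∈ S, s ≠ s' → ∃ a b, E a b ∧ s - s' = x a - x b) :
    ∃ z, ∀ s ∈ S, ∃ w, (E z w ∧ s = x z - x w) ∨ (E w z ∧ s = x w - x z) := by
  classical
  by_contra hcon
  push Not at hcon
  obtain ⟨s₁, hs₁⟩ : S.Nonempty := Finset.card_pos.mp (by omega)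
  obtain ⟨u, v, huv, hs₁e⟩ := h1 s₁ hs₁
  have huv0 := hE u v huv
  -- an element avoiding `u`
  obtain ⟨s₂, hs₂, hs₂'⟩ := hcon u
  obtain ⟨s₃, hs₃, hs₃'⟩ := hcon v
  obtain ⟨a₂, b₂, hab₂, e₂⟩ := h1 s₂ hs₂
  obtain ⟨a₃, b₃, hab₃, e₃⟩ := h1 s₃ hs₃
  have n₂ : a₂ ≠ u ∧ b₂ ≠ u := by
    constructor
    · intro h
      exact (hs₂' b₂).1 (h ▸ hab₂) (h ▸ e₂)
    · intro h
      exact (hs₂' a₂).2 (h ▸ hab₂) (h ▸ e₂)
  have n₃ : a₃ ≠ v ∧ b₃ ≠ v := by
    constructor
    · intro h
      exact (hs₃' b₃).1 (h ▸ hab₃) (h ▸ e₃)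
    · intro h
      exact (hs₃' a₃).2 (h ▸ hab₃) (h ▸ e₃)
  -- supports of different elements intersect
  have inter : ∀ s ∈ S, ∀ s' ∈ S, ∀ a b a' b', E a b → E a' b' → s = x a - x b → s' = x a' - x b' →
      a = a' ∨ a = b' ∨ b = a' ∨ b = b' := by
    intro s hs s' hs' a b a' b' hab hab' he he'
    by_cases hss : s = s'
    · rw [he, he'] at hss
      rcases unique_rep hx (hE _ _ hab) (hE _ _ hab') hss with h | h
      · exact Or.inl h.1
      · exact Or.inr (Or.inl h.1)
    · obtain ⟨c, d, hcd, hd⟩ := h2 s hs s' hs' hss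
      rw [he, he'] at hd
      exact supports hx (hE _ _ hab) (hE _ _ hab') hd
  have i12 := inter s₁ hs₁ s₂ hs₂ u v a₂ b₂ huv hab₂ hs₁e e₂
  have i13 := inter s₁ hs₁ s₃ hs₃ u v a₃ b₃ huv hab₃ hs₁e e₃
  have i23 := inter s₂ hs₂ s₃ hs₃ a₂ b₂ a₃ b₃ hab₂ hab₃ e₂ e₃
  have d₂ := hE _ _ hab₂
  have d₃ := hE _ _ hab₃
  -- the third vertex of the triangle
  obtain ⟨c, hcu, hcv, hc₂, hc₃⟩ : ∃ c, c ≠ u ∧ c ≠ v ∧
      ((a₂ = v ∧ b₂ = c) ∨ (a₂ = c ∧ b₂ = v)) ∧ ((a₃ = u ∧ b₃ = c) ∨ (a₃ = c ∧ b₃ = u)) := by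
    have k₂ : a₂ = v ∨ b₂ = v := by
      rcases i12 with h | h | h | h
      · exact absurd h.symm n₂.1
      · exact absurd h.symm n₂.2
      · exact Or.inl h.symm
      · exact Or.inr h.symm
    have k₃ : a₃ = u ∨ b₃ = u := by
      rcases i13 with h | h | h | h
      · exact Or.inl h.symm
      · exact Or.inr h.symm
      · exact absurd h.symm n₃.1
      · exact absurd h.symm n₃.2
    rcases k₂ with rfl | rfl <;> rcases k₃ with rfl | rfl
    · refine ⟨b₂, n₂.2, d₂.symm, Or.inl ⟨rfl, rfl⟩, Or.inl ⟨rfl, ?_⟩⟩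
      rcases i23 with h | h | h | h
      · exact absurd h n₂.1
      · exact absurd h.symm n₃.2
      · exact absurd h n₂.2
      · exact h.symm
    · refine ⟨b₂, n₂.2, d₂.symm, Or.inl ⟨rfl, rfl⟩, Or.inr ⟨?_, rfl⟩⟩
      rcases i23 with h | h | h | h
      · exact absurd h.symm n₃.1
      · exact absurd h n₂.1
      · exact h.symm
      · exact absurd h n₂.2
    · refine ⟨a₂, n₂.1, d₂, Or.inr ⟨rfl, rfl⟩, Or.inl ⟨rfl, ?_⟩⟩
      rcases i23 with h | h | h | h
      · exact absurd h n₂.1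
      · exact h.symm
      · exact absurd h n₂.2
      · exact absurd h.symm n₃.2
    · refine ⟨a₂, n₂.1, d₂, Or.inr ⟨rfl, rfl⟩, Or.inr ⟨?_, rfl⟩⟩
      rcases i23 with h | h | h | h
      · exact h.symm
      · exact absurd h n₂.1
      · exact absurd h.symm n₃.1
      · exact absurd h n₂.2
  -- all supports are in the triangle
  have hall : S ⊆ {x u - x v, x v - x u, x v - x c, x c - x v, x u - x c, x c - x u} := by
    intro s hs
    obtain ⟨a, b, hab, he⟩ := h1 s hs
    have j1 := inter s hs s₁ hs₁ a b u v hab huv he hs₁e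
    have j2 := inter s hs s₂ hs₂ a b a₂ b₂ hab hab₂ he e₂
    have j3 := inter s hs s₃ hs₃ a b a₃ b₃ hab hab₃ he e₃
    have j2' : a = v ∨ a = c ∨ b = v ∨ b = c := by
      rcases hc₂ with ⟨h, h'⟩ | ⟨h, h'⟩
      · rw [h, h'] at j2; exact j2
      · rw [h, h'] at j2
        rcases j2 with h | h | h | h
        · exact Or.inr (Or.inl h)
        · exact Or.inl h
        · exact Or.inr (Or.inr (Or.inr h))
        · exact Or.inr (Or.inr (Or.inl h))
    have j3' : a = u ∨ a = c ∨ b = u ∨ b = c := by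
      rcases hc₃ with ⟨h, h'⟩ | ⟨h, h'⟩
      · rw [h, h'] at j3; exact j3
      · rw [h, h'] at j3
        rcases j3 with h | h | h | h
        · exact Or.inr (Or.inl h)
        · exact Or.inl h
        · exact Or.inr (Or.inr (Or.inr h))
        · exact Or.inr (Or.inr (Or.inl h))
    have fin := tri huv0 hcu hcv j1 j2' j3'
    simp only [Finset.mem_insert, Finset.mem_singleton]
    rcases fin with ⟨h, h'⟩ | ⟨h, h'⟩ | ⟨h, h'⟩ | ⟨h, h'⟩ | ⟨h, h'⟩ | ⟨h, h'⟩ <;> rw [he, h, h']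
    · exact Or.inl rfl
    · exact Or.inr (Or.inl rfl)
    · exact Or.inr (Or.inr (Or.inl rfl))
    · exact Or.inr (Or.inr (Or.inr (Or.inl rfl)))
    · exact Or.inr (Or.inr (Or.inr (Or.inr (Or.inl rfl))))
    · exact Or.inr (Or.inr (Or.inr (Or.inr (Or.inr rfl))))
  have h6 := (Finset.card_le_card hall).trans Finset.card_le_six
  omega

/-- Large sets whose differences are differences of adjacent vectors come from cliques. -/
theorem clique {x : ι → W} (hx : Ind6 p x) {E : ι → ι → Prop} (hE : ∀ u v, E u v → u ≠ v)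
    (hsym : ∀ u v, E u v → E v u) {S : Finset W} (hS : 8 ≤ S.card)
    (h : ∀ s ∈ S, ∀ s' ∈ S, s ≠ s' → ∃ a b, E a b ∧ s - s' = x a - x b) :
    ∃ K : Finset ι, S.card ≤ K.card ∧ ∀ u ∈ K, ∀ v ∈ K, u ≠ v → E u v := by
  classical
  obtain ⟨s₀, hs₀⟩ : S.Nonempty := Finset.card_pos.mp (by omega)
  obtain ⟨T, hT⟩ : ∃ T, T = (S.erase s₀).image (fun s => s - s₀) := ⟨_, rfl⟩
  have hTc : T.card = S.card - 1 := by
    rw [hT, Finset.card_image_of_injective _ sub_left_injective, Finset.card_erase_of_mem hs₀]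
  have hT1 : ∀ s ∈ T, ∃ u v, E u v ∧ s = x u - x v := by
    intro s hs
    rw [hT, Finset.mem_image] at hs
    obtain ⟨t, ht, rfl⟩ := hs
    rw [Finset.mem_erase] at ht
    exact h t ht.2 s₀ hs₀ ht.1
  have hT2 : ∀ s ∈ T, ∀ s' ∈ T, s ≠ s' → ∃ a b, E a b ∧ s - s' = x a - x b := by
    intro s hs s' hs' hss
    rw [hT, Finset.mem_image] at hs hs'
    obtain ⟨t, ht, rfl⟩ := hs
    obtain ⟨t', ht', rfl⟩ := hs'
    rw [Finset.mem_erase] at ht ht'
    obtain ⟨a, b, hab, hab'⟩ := h t ht.2 t' ht'.2 (fun h1 => hss (by rw [h1]))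
    exact ⟨a, b, hab, by rw [← hab']; abel⟩
  obtain ⟨z, hz⟩ := star hx hE (S := T) (by omega) hT1 hT2
  have : Nonempty ι := ⟨z⟩
  choose! w hw using hz
  -- the reversed element
  have inj : ∀ a b : ι, ∀ c d : ι, a ≠ b → c ≠ d → x a - x b = x c - x d →
      (a = c ∧ b = d) ∨ (a = d ∧ b = c) := fun a b c d hab hcd he => unique_rep hx hab hcd he
  have hone : (∀ s ∈ T, ∃ w, E z w ∧ s = x z - x w) ∨ (∀ s ∈ T, ∃ w, E w z ∧ s = x w - x z) := by
    by_contra hcon
    push Not at hcon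
    obtain ⟨⟨s₁, hs₁, n₁⟩, ⟨s₂, hs₂, n₂⟩⟩ := hcon
    obtain ⟨w₁, hw₁, e₁⟩ : ∃ w, E w z ∧ s₁ = x w - x z := by
      rcases hw s₁ hs₁ with ⟨h1, h2⟩ | h1
      · exact absurd h2 (n₁ _ h1)
      · exact ⟨_, h1⟩
    obtain ⟨w₂, hw₂, e₂⟩ : ∃ w, E z w ∧ s₂ = x z - x w := by
      rcases hw s₂ hs₂ with h1 | ⟨h1, h2⟩
      · exact ⟨_, h1⟩
      · exact absurd h2 (n₂ _ h1)
    have hp : p ≠ 2 := by
      rintro rfl
      apply n₁ w₁ (hsym _ _ hw₁)
      rw [e₁]
      have h2 : ∀ v : W, v + v = 0 := fun v => by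
        rw [← two_smul (ZMod 2) v, show (2 : ZMod 2) = 0 from rfl, zero_smul]
      have h3 := h2 (x w₁ - x z)
      have h4 : x w₁ - x z = -(x w₁ - x z) := eq_neg_of_add_eq_zero_left h3
      rw [h4, neg_sub]
    have mixed : ∀ a b : ι, E z a → E b z → x z - x a ∈ T → x b - x z ∈ T → a = b := by
      intro a b hza hbz ha hb
      by_contra hab
      have hne : x z - x a ≠ x b - x z := by
        intro he
        rcases inj _ _ _ _ (hE _ _ hza) (hE _ _ hbz) he with h1 | h1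
        · exact hE _ _ hza h1.2.symm
        · exact hab h1.2
      obtain ⟨c, d, hcd, hd⟩ := hT2 _ ha _ hb hne
      exact signs hx hp (hE _ _ hza) (hE _ _ (hsym _ _ hbz)) hab hd
    have h12 : w₂ = w₁ := mixed w₂ w₁ hw₂ hw₁ (e₂ ▸ hs₂) (e₁ ▸ hs₁)
    -- a third element
    obtain ⟨s₃, hs₃, h31, h32⟩ : ∃ s ∈ T, s ≠ s₁ ∧ s ≠ s₂ := by
      by_contra hc
      push Not at hc
      have : T ⊆ {s₁, s₂} := by
        intro s hs
        rw [Finset.mem_insert, Finset.mem_singleton]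
        by_cases h1 : s = s₁
        · exact Or.inl h1
        · exact Or.inr (hc s hs h1)
      have := (Finset.card_le_card this).trans Finset.card_le_two
      omega
    rcases hw s₃ hs₃ with ⟨h1, h2⟩ | ⟨h1, h2⟩
    · have h4 := mixed _ w₁ h1 hw₁ (h2 ▸ hs₃) (e₁ ▸ hs₁)
      apply h32
      rw [h2, e₂, h4, h12]
    · have h4 := mixed w₂ _ hw₂ h1 (e₂ ▸ hs₂) (h2 ▸ hs₃)
      apply h31
      rw [h2, e₁, ← h4, h12]
  -- the conclusion for one sign
  have fin : ∀ w' : W → ι, (∀ s ∈ T, E z (w' s)) →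
      (∀ s ∈ T, ∀ s' ∈ T, w' s = w' s' → s = s') →
      (∀ s ∈ T, ∀ s' ∈ T, s ≠ s' → E (w' s) (w' s')) →
      ∃ K : Finset ι, S.card ≤ K.card ∧ ∀ u ∈ K, ∀ v ∈ K, u ≠ v → E u v := by
    intro w' h1 h2 h3
    refine ⟨insert z (T.image w'), ?_, ?_⟩
    · rw [Finset.card_insert_of_notMem, Finset.card_image_of_injOn]
      · omega
      · intro s hs s' hs' he
        exact h2 s hs s' hs' he
      · intro hc
        rw [Finset.mem_image] at hc
        obtain ⟨s, hs, he⟩ := hc
        exact hE _ _ (h1 s hs) he.symm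
    · intro u hu v hv huv
      rw [Finset.mem_insert, Finset.mem_image] at hu hv
      rcases hu with hu | ⟨s, hs, hu⟩ <;> rcases hv with hv | ⟨s', hs', hv⟩
      · exact absurd (hu.trans hv.symm) huv
      · rw [hu, ← hv]
        exact h1 s' hs'
      · rw [hv, ← hu]
        exact hsym _ _ (h1 s hs)
      · rw [← hu, ← hv]
        refine h3 s hs s' hs' ?_
        rintro rfl
        exact huv (hu.symm.trans hv)
  rcases hone with hone | hone
  · choose! w' hw' hw'' using hone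
    refine fin w' hw' ?_ ?_
    · intro s hs s' hs' he
      rw [hw'' s hs, hw'' s' hs', he]
    · intro s hs s' hs' hss
      obtain ⟨a, b, hab, hd⟩ := hT2 s hs s' hs' hss
      rw [hw'' s hs, hw'' s' hs', sub_sub_sub_cancel_left] at hd
      have hne : w' s' ≠ w' s := by
        intro he
        apply hss
        rw [hw'' s hs, hw'' s' hs', he]
      rcases inj _ _ _ _ hne (hE _ _ hab) hd with h1 | h1
      · rw [h1.1, h1.2]
        exact hsym _ _ hab
      · rw [h1.1, h1.2]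
        exact hab
  · choose! w' hw' hw'' using hone
    refine fin w' (fun s hs => hsym _ _ (hw' s hs)) ?_ ?_
    · intro s hs s' hs' he
      rw [hw'' s hs, hw'' s' hs', he]
    · intro s hs s' hs' hss
      obtain ⟨a, b, hab, hd⟩ := hT2 s hs s' hs' hss
      rw [hw'' s hs, hw'' s' hs', sub_sub_sub_cancel_right] at hd
      have hne : w' s ≠ w' s' := by
        intro he
        apply hss
        rw [hw'' s hs, hw'' s' hs', he]
      rcases inj _ _ _ _ hne (hE _ _ hab) hd with h1 | h1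
      · rw [h1.1, h1.2]
        exact hab
      · rw [h1.1, h1.2]
        exact hsym _ _ hab

end Q224.CG
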