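import Pool.Agent.Q224.CG.Red
import Pool.Agent.H628R2.Forb.PolyF

/-!
# The reduction is computable in polynomial time
-/

set_option autoImplicit false

namespace Pool.Agent.NPC.Q224CG

open _root_.Q224.CG _root_.Q224.RD Pool.Agent.NPC.H628F Pool.Agent.H628R2.Forb

variable {α : Type} [TEnc α]

theorem p_vecs {K : α → List ℕ} {n N : α → ℕ} (hK : Poly K) (hn : UPoly n) (hN : UPoly N)
    (hb : ∀ a, ∀ k ≤ n a, (K a).length ^ k ≤ N a) : Poly (fun a => vecs (K a) (n a)) := by
  obtain ⟨rK, hrK⟩ := hK.sz_le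
  obtain ⟨rn, hrn⟩ := UPoly.le hn
  obtain ⟨rN, hrN⟩ := UPoly.le hN
  refine Poly.foldl (l := fun a => List.range (n a)) (s := fun _ => ([[]] : List (List ℕ)))
    (F := fun a ss _ => (K a).flatMap (fun x => ss.map (fun s => x :: s)))
    hn.range (Poly.const _) ?_ (rN * (rn * (rK + Polynomial.C 1) + Polynomial.C 2) + Polynomial.C 1)
    ?_
  · refine Poly.flatMap
      (F := fun (a : α × List (List ℕ) × ℕ) (x : ℕ) => a.2.1.map (fun s => x :: s))
      (hK.comp p_fst) ?_
    exact Poly.map (F := fun (a : (α × List (List ℕ) × ℕ) × ℕ) (s : List ℕ) => a.2 :: s)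
      (Poly.fst (Poly.snd p_fst)) (Poly.cons (Poly.snd p_fst) p_snd)
  · intro a k hk
    rw [List.length_range] at hk
    rw [List.take_range, Nat.min_eq_left hk]
    change sz (vecs (K a) k) ≤ _
    have h0 := sz_le_length_mul (vecs (K a) k) (k * (sz (K a) + 1) + 1) (by
      intro l hl
      rw [mem_vecs] at hl
      have h1 := sz_le_length_mul l (sz (K a)) (fun x hx => (sz_le_of_mem (hl.2 x hx)).le)
      have h2 : l.length * (sz (K a) + 1) = k * (sz (K a) + 1) := by rw [hl.1]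
      omega)
    refine h0.trans ?_
    have h1 : (vecs (K a) k).length ≤ rN.eval (sz a) := by
      rw [vecs_length]
      exact (hb a k hk).trans (hrN a)
    have h2 : k * (sz (K a) + 1) + 2 ≤ rn.eval (sz a) * (rK.eval (sz a) + 1) + 2 := by
      have := Nat.mul_le_mul (hk.trans (hrn a)) (Nat.add_le_add_right (hrK a) 1)
      omega
    simp only [Polynomial.eval_add, Polynomial.eval_mul, Polynomial.eval_C]
    exact Nat.add_le_add_right (Nat.mul_le_mul h1 h2) 1

theorem p_pw (p : ℕ) (hp : 1 ≤ p) {m : α → ℕ} (hm : UPoly m) : Poly (fun a => pw p (m a)) := by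
  have h8 := UPoly.add hm (UPoly.const 8)
  obtain ⟨r, hr⟩ := (Poly.mul h8.toPoly (Poly.const p)).sz_le
  obtain ⟨r', hr'⟩ := h8.toPoly.sz_le
  refine Poly.foldl (l := fun a => List.range (m a + 8)) (s := fun _ => ((1, 0) : ℕ × ℕ))
    (F := fun a s _ => if s.1 < m a + 8 then (s.1 * p, s.2 + 1) else s) h8.range (Poly.const _) ?_
    (Polynomial.C 2 * r + Polynomial.C 2 * r' + Polynomial.C 1) ?_
  · have h1 : Poly (fun x : α × (ℕ × ℕ) × ℕ => x.2.1) := Poly.fst p_snd
    exact Poly.ite (Poly.decide_lt (Poly.fst h1) (h8.toPoly.comp p_fst))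
      (Poly.pair (Poly.mul (Poly.fst h1) (Poly.const p)) (Poly.add (Poly.snd h1) (Poly.const 1))) h1
  · intro a k hk
    rw [List.length_range] at hk
    have h1 := pw_fold_le p (m a) hp ((List.range (m a + 8)).take k)
    have h2 := pw_fold_snd p (m a) ((List.range (m a + 8)).take k)
    rw [List.length_take, List.length_range] at h2
    set s := ((List.range (m a + 8)).take k).foldl
      (fun (s : ℕ × ℕ) _ => if s.1 < m a + 8 then (s.1 * p, s.2 + 1) else s) (1, 0) with hs
    have h3 : sz s.1 ≤ 2 * sz ((m a + 8) * p) := sz_nat_mono_le h1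
    have h4 : sz s.2 ≤ 2 * sz (m a + 8) := sz_nat_mono_le (h2.trans (by omega))
    have h5 : sz s = sz s.1 + sz s.2 + 1 := sz_pair s.1 s.2
    have h6 := hr a
    have h7 := hr' a
    rw [h5]
    simp only [Polynomial.eval_add, Polynomial.eval_mul, Polynomial.eval_C]
    omega

theorem p_addL (p : ℕ) {l l' : α → List ℕ} (hl : Poly l) (hl' : Poly l') :
    Poly (fun a => addL p (l a) (l' a)) :=
  Poly.map (F := fun (_ : α) (q : ℕ × ℕ) => (q.1 + q.2) % p) (Poly.zip hl hl')
    (Poly.mod (Poly.add (Poly.fst p_snd) (Poly.snd p_snd)) (Poly.const p))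

theorem p_subL (p : ℕ) {l l' : α → List ℕ} (hl : Poly l) (hl' : Poly l') :
    Poly (fun a => subL p (l a) (l' a)) :=
  Poly.map (F := fun (_ : α) (q : ℕ × ℕ) => (q.1 + (p - q.2)) % p) (Poly.zip hl hl')
    (Poly.mod (Poly.add (Poly.fst p_snd) (Poly.sub (Poly.const p) (Poly.snd p_snd)))
      (Poly.const p))

theorem p_mulL (p : ℕ) {c : α → ℕ} {l : α → List ℕ} (hc : Poly c) (hl : Poly l) :
    Poly (fun a => mulL p (c a) (l a)) :=
  Poly.map (F := fun (a : α) (x : ℕ) => (c a * x) % p) hl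
    (Poly.mod (Poly.mul (hc.comp p_fst) p_snd) (Poly.const p))

theorem p_comb (p : ℕ) {z : α → List ℕ} {S : α → List (List ℕ)} (hz : Poly z) (hS : Poly S)
    (k : ℕ) : Poly (fun a => comb p (z a) (S a) k) := by
  induction k with
  | zero => exact Poly.cons hz (Poly.const [])
  | succ k ih =>
    refine Poly.append ih ?_
    refine Poly.flatMap (F := fun (a : α) (u : List ℕ) => (S a).flatMap fun s =>
      (List.range p).map fun c => addL p u (mulL p c s)) ih ?_
    refine Poly.flatMap (F := fun (a : α × List ℕ) (s : List ℕ) =>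
      (List.range p).map fun c => addL p a.2 (mulL p c s)) (hS.comp p_fst) ?_
    refine Poly.map (F := fun (a : (α × List ℕ) × List ℕ) (c : ℕ) =>
      addL p a.1.2 (mulL p c a.2)) (Poly.const _) ?_
    exact p_addL p (Poly.snd (Poly.fst p_fst)) (p_mulL p p_snd (Poly.snd p_fst))

theorem p_zeroL {n : α → ℕ} (hn : UPoly n) : Poly (fun a => zeroL (n a)) :=
  Poly.map (F := fun (_ : α) (_ : ℕ) => 0) hn.range (Poly.const 0)

theorem gstep_eq (p : ℕ) (z : List ℕ) (V S : List (List ℕ)) : gstep p z V S =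
    S ++ [(V.filter fun v => !decide (v ∈ comb p z S 5)).getD 0 z] := by
  rw [gstep]
  congr 2
  cases V.filter fun v => !decide (v ∈ comb p z S 5) <;> rfl

theorem p_mem {f : α → List ℕ} {l : α → List (List ℕ)} (hf : Poly f) (hl : Poly l) :
    Poly (fun a => decide (f a ∈ l a)) :=
  (Poly.decide_mem hf hl).congr fun _ => decide_eq_decide.mpr Iff.rfl

theorem p_gstep (p : ℕ) {z : α → List ℕ} {V S : α → List (List ℕ)} (hz : Poly z) (hV : Poly V)
    (hS : Poly S) : Poly (fun a => gstep p (z a) (V a) (S a)) := by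
  refine Poly.congr (f := fun a => S a ++ [((V a).filter fun v =>
    !decide (v ∈ comb p (z a) (S a) 5)).getD 0 (z a)]) ?_ fun a => (gstep_eq _ _ _ _).symm
  refine Poly.append hS (Poly.cons (Poly.getD ?_ (Poly.const 0) hz) (Poly.const []))
  refine Poly.filter (p := fun (a : α) (v : List ℕ) => !decide (v ∈ comb p (z a) (S a) 5)) hV ?_
  have h1 : Poly (fun x : α × List ℕ => comb p (z x.1) (S x.1) 5) :=
    p_comb p (hz.comp p_fst) (hS.comp p_fst) 5
  exact Poly.not (p_mem p_snd h1)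

theorem greedy_mem' {p : ℕ} {z : List ℕ} {V : List (List ℕ)} (N : ℕ) :
    ∀ l ∈ greedy p z V N, l ∈ z :: V := by
  induction N with
  | zero => intro l hl; simp [greedy] at hl
  | succ N ih =>
    intro l hl
    rw [greedy_succ, gstep, List.mem_append, List.mem_singleton] at hl
    rcases hl with hl | hl
    · exact ih l hl
    · rw [hl]
      rcases h : (V.filter fun v => !decide (v ∈ comb p z (greedy p z V N) 5)).head? with _ | v
      · exact List.mem_cons_self
      · exact List.mem_cons_of_mem _ (List.mem_of_mem_filter (List.mem_of_mem_head? h))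

theorem p_greedy (p : ℕ) {z : α → List ℕ} {V : α → List (List ℕ)} {N : α → ℕ} (hz : Poly z)
    (hV : Poly V) (hN : UPoly N) : Poly (fun a => greedy p (z a) (V a) (N a)) := by
  obtain ⟨r, hr⟩ := (Poly.cons hz hV).sz_le
  obtain ⟨rN, hrN⟩ := UPoly.le hN
  refine Poly.foldl (l := fun a => List.range (N a)) (s := fun _ => ([] : List (List ℕ)))
    (F := fun a S _ => gstep p (z a) (V a) S) hN.range (Poly.const _) ?_
    (rN * (r + Polynomial.C 1) + Polynomial.C 1) ?_
  · exact p_gstep p (hz.comp p_fst) (hV.comp p_fst) (Poly.fst p_snd)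
  · intro a k hk
    rw [List.length_range] at hk
    rw [List.take_range, Nat.min_eq_left hk]
    change sz (greedy p (z a) (V a) k) ≤ _
    have h1 := sz_le_length_mul (greedy p (z a) (V a) k) (r.eval (sz a)) (by
      intro l hl
      exact (sz_le_of_mem (greedy_mem' k l hl)).le.trans (hr a))
    rw [greedy_length] at h1
    refine h1.trans ?_
    simp only [Polynomial.eval_add, Polynomial.eval_mul, Polynomial.eval_C]
    exact Nat.add_le_add_right (Nat.mul_le_mul_right _ (hk.trans (hrN a))) 1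

theorem p_litAt {φ : α → List (Lit ℕ × Lit ℕ × Lit ℕ)} {w : α → ℕ} (hφ : Poly φ) (hw : Poly w) :
    Poly (fun a => litAt (φ a) (w a)) := by
  unfold litAt
  refine Poly.getD (Poly.getD (Poly.map (F := fun (_ : α) (c : Lit ℕ × Lit ℕ × Lit ℕ) =>
    [(c.1.1, c.1.2 + 1), (c.2.1.1, c.2.1.2 + 1), (c.2.2.1, c.2.2.2 + 1)]) hφ ?_)
    (Poly.div hw (Poly.const 3)) (Poly.const [])) (Poly.mod hw (Poly.const 3)) (Poly.const _)
  have hc : Poly (fun x : α × (Lit ℕ × Lit ℕ × Lit ℕ) => x.2) := p_snd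
  exact Poly.cons (Poly.pair (Poly.fst (Poly.fst hc)) (Poly.succ (Poly.snd (Poly.fst hc))))
    (Poly.cons (Poly.pair (Poly.fst (Poly.fst (Poly.snd hc)))
      (Poly.succ (Poly.snd (Poly.fst (Poly.snd hc)))))
    (Poly.cons (Poly.pair (Poly.fst (Poly.snd (Poly.snd hc)))
      (Poly.succ (Poly.snd (Poly.snd (Poly.snd hc))))) (Poly.const [])))

theorem p_compat {φ : α → List (Lit ℕ × Lit ℕ × Lit ℕ)} {u v : α → ℕ} (hφ : Poly φ)
    (hu : Poly u) (hv : Poly v) : Poly (fun a => compat (φ a) (u a) (v a)) := by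
  unfold compat
  have h1 := p_litAt hφ hu
  have h2 := p_litAt hφ hv
  exact Poly.and (Poly.not (Poly.decide_eq (Poly.div hu (Poly.const 3))
    (Poly.div hv (Poly.const 3)))) (Poly.not (Poly.and (Poly.decide_eq (Poly.snd h1) (Poly.snd h2))
      (Poly.not (Poly.decide_eq (Poly.fst h1) (Poly.fst h2)))))

theorem p_vx {t n w : α → ℕ} {V Y : α → List (List ℕ)} (ht : UPoly t) (hn : UPoly n)
    (hV : Poly V) (hY : Poly Y) (hw : Poly w) :
    Poly (fun a => vx (t a) (n a) (V a) (Y a) (w a)) := by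
  unfold vx
  exact Poly.append (Poly.getD hV (Poly.div hw (Poly.const 3)) (p_zeroL ht))
    (Poly.getD hY hw (p_zeroL hn))

theorem p_dl (p : ℕ) {φ : α → List (Lit ℕ × Lit ℕ × Lit ℕ)} {t n N : α → ℕ}
    {V Y : α → List (List ℕ)} (hφ : Poly φ) (ht : UPoly t) (hn : UPoly n) (hN : UPoly N)
    (hV : Poly V) (hY : Poly Y) :
    Poly (fun a => dl (φ a) p (t a) (n a) (N a) (V a) (Y a)) := by
  unfold dl
  refine Poly.flatMap (F := fun (a : α) (u : ℕ) =>
    ((List.range (N a)).filter fun v => compat (φ a) u v).map fun v =>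
      subL p (vx (t a) (n a) (V a) (Y a) u) (vx (t a) (n a) (V a) (Y a) v)) hN.range ?_
  refine Poly.map (F := fun (a : α × ℕ) (v : ℕ) =>
    subL p (vx (t a.1) (n a.1) (V a.1) (Y a.1) a.2) (vx (t a.1) (n a.1) (V a.1) (Y a.1) v)) ?_ ?_
  · refine Poly.filter (p := fun (a : α × ℕ) (v : ℕ) => compat (φ a.1) a.2 v)
      (hN.comp p_fst).range ?_
    exact p_compat (hφ.comp (Poly.fst p_fst)) (Poly.snd p_fst) p_snd
  · have h1 : Poly (fun x : (α × ℕ) × ℕ => x.1.1) := Poly.fst p_fst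
    exact p_subL p (p_vx (ht.comp h1) (hn.comp h1) (hV.comp h1) (hY.comp h1) (Poly.snd p_fst))
      (p_vx (ht.comp h1) (hn.comp h1) (hV.comp h1) (hY.comp h1) p_snd)

theorem p_quot (tbl : List (List ℕ)) {h h' : α → List ℕ} (hh : Poly h) (hh' : Poly h') :
    Poly (fun a => quot tbl (h a) (h' a)) := by
  unfold quot code
  exact Poly.map (F := fun (_ : α) (q : ℕ × ℕ) => (tbl.getD q.1 []).getD q.2 0) (Poly.zip hh hh')
    (Poly.getD (Poly.getD (Poly.const tbl) (Poly.fst p_snd) (Poly.const [])) (Poly.snd p_snd)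
      (Poly.const 0))

theorem p_relC (p : ℕ) (tbl : List (List ℕ)) {Dl : α → List (List ℕ)} {h h' : α → List ℕ}
    (hD : Poly Dl) (hh : Poly h) (hh' : Poly h') :
    Poly (fun a => relC p tbl (Dl a) (h a) (h' a)) := by
  unfold relC
  have hq := p_quot tbl hh hh'
  refine Poly.and (Poly.all (p := fun (_ : α) (c : ℕ) => decide (c < p)) hq
    (Poly.decide_lt p_snd (Poly.const p))) (Poly.and (Poly.any
      (p := fun (_ : α) (c : ℕ) => !decide (c = 0)) hq
      (Poly.not (Poly.decide_eq p_snd (Poly.const 0)))) (Poly.not (p_mem hq hD)))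

theorem p_mtxOf {l : α → List (List ℕ)} {rel : α → List ℕ → List ℕ → Bool} (hl : Poly l)
    (hr : Poly (fun x : (α × List ℕ) × List ℕ => rel x.1.1 x.1.2 x.2)) :
    Poly (fun a => mtxOf (l a) (rel a)) := by
  unfold mtxOf
  refine Poly.map (F := fun (a : α) (d : List ℕ) => (l a).map fun e => rel a d e) hl ?_
  exact Poly.map (F := fun (a : α × List ℕ) (e : List ℕ) => rel a.1 a.2 e) (hl.comp p_fst) hr

theorem bound1 {p t P k : ℕ} (hp : 2 ≤ p) (hP : P = p ^ t) (hk : k ≤ t + (5 * t + 15)) :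
    p ^ k ≤ P ^ 6 * p ^ 15 := by
  refine (Nat.pow_le_pow_right (by omega) hk).trans (le_of_eq ?_)
  rw [hP, ← pow_mul, ← pow_add]
  congr 1
  ring

theorem bound2 {m p t P k : ℕ} (hp : 2 ≤ p) (hP : P = p ^ t) (hk : k ≤ t + (5 * t + 15)) :
    m ^ k ≤ (P ^ 6 * p ^ 15) ^ m := by
  have h1 : m ≤ p ^ m := (Nat.lt_pow_self (by omega)).le
  calc m ^ k ≤ (p ^ m) ^ k := Nat.pow_le_pow_left h1 _
    _ = (p ^ k) ^ m := by rw [← pow_mul, ← pow_mul, mul_comm]
    _ ≤ (P ^ 6 * p ^ 15) ^ m := Nat.pow_le_pow_left (bound1 hp hP hk) _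

theorem p_out (m : ℕ) {p : ℕ} (hp : 2 ≤ p) (tbl : List (List ℕ)) :
    Poly (fun φ : List (Lit ℕ × Lit ℕ × Lit ℕ) => out m p tbl φ) := by
  have hφ : Poly (fun φ : List (Lit ℕ × Lit ℕ × Lit ℕ) => φ) := Poly.id
  have hm : UPoly (fun φ : List (Lit ℕ × Lit ℕ × Lit ℕ) => φ.length) := UPoly.length hφ
  have hpw := p_pw p (by omega) hm
  have hP : UPoly (fun φ : List (Lit ℕ × Lit ℕ × Lit ℕ) => (pw p φ.length).1) :=
    UPoly.of_le (Poly.fst hpw) (UPoly.mul (UPoly.add hm (UPoly.const 8)) (UPoly.const p))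
      fun φ => pw_le p φ.length (by omega)
  have ht : UPoly (fun φ : List (Lit ℕ × Lit ℕ × Lit ℕ) => (pw p φ.length).2) :=
    UPoly.of_le (Poly.snd hpw) (UPoly.add hm (UPoly.const 8)) fun φ => pw_snd_le p φ.length
  have hn : UPoly (fun φ : List (Lit ℕ × Lit ℕ × Lit ℕ) => 5 * (pw p φ.length).2 + 15) :=
    UPoly.add (UPoly.mul (UPoly.const 5) ht) (UPoly.const 15)
  have hB : UPoly (fun φ : List (Lit ℕ × Lit ℕ × Lit ℕ) => (pw p φ.length).1 ^ 6 * p ^ 15) := by
    have := UPoly.eval hP (Polynomial.X ^ 6 * Polynomial.C (p ^ 15))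
    simpa using this
  have hB2 : UPoly (fun φ : List (Lit ℕ × Lit ℕ × Lit ℕ) =>
      ((pw p φ.length).1 ^ 6 * p ^ 15) ^ m) := by
    have := UPoly.eval hB (Polynomial.X ^ m)
    simpa using this
  have hN : UPoly (fun φ : List (Lit ℕ × Lit ℕ × Lit ℕ) => 3 * (pw p φ.length).1) :=
    UPoly.mul (UPoly.const 3) hP
  have hV1 : Poly (fun φ : List (Lit ℕ × Lit ℕ × Lit ℕ) =>
      vecs (List.range p) (pw p φ.length).2) := by
    refine p_vecs (Poly.const _) ht hB fun φ k hk => ?_
    rw [List.length_range]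
    exact bound1 hp (pw_eq p φ.length) (by omega)
  have hV2 : Poly (fun φ : List (Lit ℕ × Lit ℕ × Lit ℕ) =>
      vecs (List.range p) (5 * (pw p φ.length).2 + 15)) := by
    refine p_vecs (Poly.const _) hn hB fun φ k hk => ?_
    rw [List.length_range]
    exact bound1 hp (pw_eq p φ.length) (by omega)
  have hV3 : Poly (fun φ : List (Lit ℕ × Lit ℕ × Lit ℕ) =>
      vecs (List.range m) ((pw p φ.length).2 + (5 * (pw p φ.length).2 + 15))) := by
    refine p_vecs (Poly.const _) (UPoly.add ht hn) hB2 fun φ k hk => ?_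
    rw [List.length_range]
    exact bound2 hp (pw_eq p φ.length) hk
  have hg := p_greedy p (p_zeroL hn) hV2 hN
  have hd := p_dl p hφ ht hn hN hV1 hg
  unfold out
  refine Poly.pair (p_mtxOf (rel := fun φ => relC p tbl (dl φ p (pw p φ.length).2
    (5 * (pw p φ.length).2 + 15) (3 * (pw p φ.length).1) (vecs (List.range p) (pw p φ.length).2)
    (greedy p (zeroL (5 * (pw p φ.length).2 + 15))
      (vecs (List.range p) (5 * (pw p φ.length).2 + 15)) (3 * (pw p φ.length).1)))) hV3 ?_)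
    (Poly.length hV2)
  exact p_relC p tbl (hd.comp (Poly.fst p_fst)) (Poly.snd p_fst) p_snd

/-- The chromatic number is hard to compute for the Cayley graphs of the powers of a group. -/
theorem hard (G : Type) [Group G] [Finite G] [Nontrivial G] :
    HardPr (fun x : List (List Bool) × ℕ => ∃ n, 1 ≤ n ∧ ∃ (C : Set (Fin n → G))
      (hC : Admissible C), Nonempty (Pool.Agent.H633R2.graphOf x.1 ≃g cayley C hC))
      (fun x => (Pool.Agent.H633R2.graphOf x.1).Colorable x.2) := by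
  obtain ⟨p, hp, hpd⟩ : ∃ p, p.Prime ∧ p ∣ Nat.card G :=
    Nat.exists_prime_and_dvd (Finite.one_lt_card (α := G)).ne'
  have : Fact p.Prime := ⟨hp⟩
  obtain ⟨g, hg⟩ := exists_prime_orderOf_dvd_card' p hpd
  obtain ⟨tbl, ht⟩ := exists_table (Finite.equivFin G).symm p g
  refine hardPr_SAT3.trans (p_out (Nat.card G) hp.two_le tbl) (fun φ _ => ?_) (fun φ _ => ?_)
  · exact (out_spec hg ht φ).1
  · exact (out_spec hg ht φ).2

end Pool.Agent.NPC.Q224CG
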