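import Pool.Agent.Q240.CG.Stm

set_option autoImplicit false

/-!
# Project CG, job Uni0: the ground states in the presence of a central zero
-/

open Polynomial Filter Topology Finset MeasureTheory

namespace Pool.Agent.Q224.CG

open Pool.Agent.Q240.CD Pool.Agent.Q240.CG
open Pool.Agent.Q16.CD (LS OS Lp_eq Op_eq LS_summ LS_add LS_mul OS_int OS_add OS_mul split_eval deg_contract
  deg_contract' deg_comp2 Lp_even Lp_odd Op_even Op_odd deg_sq deg_odd Lp_split Op_split Op_pos)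

variable {g M : ℕ → ℝ} {n : ℕ} {u : ℝ → ℝ} {c : ℝ}

/-- the form with a mass at `0` as a functional of the square -/
noncomputable def LS0 (c : ℝ) (g M : ℕ → ℝ) (S : ℝ[X]) : ℝ := c * S.eval 0 + LS g M S

theorem Lp0_eq (P : ℝ[X]) : Lp0 c g M P = LS0 c g M (P * P) := by
  unfold Lp0 LS0
  rw [Lp_eq, eval_mul]
  ring

theorem LS0_add (h : PM g M n) {S R : ℝ[X]} (hS : S.natDegree ≤ 4 * n) (hR : R.natDegree ≤ 4 * n) :
    LS0 c g M (S + R) = LS0 c g M S + LS0 c g M R := by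
  unfold LS0
  rw [LS_add h hS hR, eval_add]
  ring

theorem LS0_mul (k : ℝ) (S : ℝ[X]) : LS0 c g M (C k * S) = k * LS0 c g M S := by
  unfold LS0
  rw [LS_mul, eval_mul, eval_C]
  ring

theorem Lam_X (r : ℝ[X]) : Lam g M (X * r * r) = Lam g (fun j => g j * M j) (r * r) := by
  unfold Lam
  congr 1
  funext j
  simp only [eval_mul, eval_X]
  ring

theorem Lp0_odd (h : PM g M n) {r : ℝ[X]} :
    Lp0 c g M (X * r.comp (X ^ 2)) = Lam g (fun j => g j * M j) (r * r) := by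
  unfold Lp0
  rw [Lp_odd h, Lam_X, eval_mul, eval_X]
  ring

theorem Lp0_even (h : PM g M n) {q : ℝ[X]} :
    Lp0 c g M (q.comp (X ^ 2)) = c * q.eval 0 ^ 2 + Lam g M (q * q) := by
  unfold Lp0
  rw [Lp_even h, eval_comp, eval_pow, eval_X, zero_pow (by norm_num)]

theorem Lp0_split (h : PM g M n) {q r : ℝ[X]} (hq : q.natDegree ≤ n) (hr : r = 0 ∨ r.natDegree + 1 ≤ n) :
    Lp0 c g M (q.comp (X ^ 2) + X * r.comp (X ^ 2)) =
      Lp0 c g M (q.comp (X ^ 2)) + Lp0 c g M (X * r.comp (X ^ 2)) := by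
  unfold Lp0
  rw [Lp_split h hq hr, Lp_even h, Lp_odd h]
  simp only [eval_add, eval_mul, eval_X, zero_mul, add_zero]
  ring

theorem Lp0_nonneg (hc : 0 ≤ c) (hM : ∀ j, 0 ≤ M j) (P : ℝ[X]) : 0 ≤ Lp0 c g M P := by
  unfold Lp0 Pool.Agent.Q240.CD.Lp
  have : 0 ≤ ∑' j, M j / 2 * (P.eval (Real.sqrt (g j)) ^ 2 + P.eval (-Real.sqrt (g j)) ^ 2) :=
    tsum_nonneg fun j => mul_nonneg (div_nonneg (hM j) (by norm_num)) (by positivity)
  positivity

theorem coeff_one_comp2 (q : ℝ[X]) : (q.comp (X ^ 2)).coeff 1 = 0 := by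
  rw [← expand_eq_comp_X_pow, coeff_expand (by norm_num), if_neg (by norm_num)]

theorem uni0 : S_Uni0 := by
  intro c g M n u hc hn hPM hu0 hue huc hupos hi r0 hr0 hH
  have hr0d : r0.natDegree + 1 ≤ n := by
    have := hr0.1
    omega
  -- the first part
  have A1 : ∀ P : ℝ[X], P ≠ 0 → Gr0 c g M u n P → P.coeff 1 ≠ 0 ∧ ∃ r : ℝ[X], r ≠ 0 ∧ r.natDegree + 1 ≤ n ∧
      P = X * r.comp (X ^ 2) ∧ Lam g (fun j => g j * M j) (r * r) * Oo u r0 ≤
        Lam g (fun j => g j * M j) (r0 * r0) * Oo u r := by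
    intro P hP hGr
    obtain ⟨hPd, hmin⟩ := hGr
    have h3 := hmin (X * r0.comp (X ^ 2)) (deg_odd (Or.inr hr0d))
    rw [Lp0_odd hPM, Op_odd] at h3
    have hc1 : P.coeff 1 ≠ 0 := by
      intro h0
      have := hH P hP hPd h0
      linarith
    obtain ⟨q, hqdef⟩ : ∃ q, q = contract 2 P := ⟨_, rfl⟩
    obtain ⟨r, hrdef⟩ : ∃ r, r = contract 2 (divX P) := ⟨_, rfl⟩
    have hPs : P = q.comp (X ^ 2) + X * r.comp (X ^ 2) := by rw [hqdef, hrdef]; exact split_eval P
    have hqd : q.natDegree ≤ n := by rw [hqdef]; exact deg_contract hPd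
    have hrd : r = 0 ∨ r.natDegree + 1 ≤ n := by
      by_cases h0 : r = 0
      · exact Or.inl h0
      · right
        rw [hrdef] at h0 ⊢
        exact deg_contract' hPd h0
    have hb : 0 < Op u P := Op_pos hu0 huc hupos hi hP hPd
    have hLs : Lp0 c g M P = Lp0 c g M (q.comp (X ^ 2)) + Lp0 c g M (X * r.comp (X ^ 2)) := by
      conv_lhs => rw [hPs]
      exact Lp0_split hPM hqd hrd
    have hOs : Op u P = Op u (q.comp (X ^ 2)) + Op u (X * r.comp (X ^ 2)) := by
      conv_lhs => rw [hPs]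
      rw [Op_split hu0 hue huc hi hqd hrd, Op_even, Op_odd]
    have h1 := hmin (q.comp (X ^ 2)) (deg_comp2 hqd)
    have h2 := hmin (X * r.comp (X ^ 2)) (deg_odd hrd)
    have e1 : Lp0 c g M (q.comp (X ^ 2)) * Op u P = Lp0 c g M P * Op u (q.comp (X ^ 2)) := by
      have e3 : Lp0 c g M P * Op u P = Lp0 c g M P * Op u (q.comp (X ^ 2)) +
          Lp0 c g M P * Op u (X * r.comp (X ^ 2)) := by rw [← mul_add, ← hOs]
      have e4 : Lp0 c g M P * Op u P = Lp0 c g M (q.comp (X ^ 2)) * Op u P +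
          Lp0 c g M (X * r.comp (X ^ 2)) * Op u P := by rw [← add_mul, ← hLs]
      linarith
    have hOe : 0 ≤ Op u (q.comp (X ^ 2)) := integral_nonneg fun x => mul_nonneg (sq_nonneg _) (hu0 x)
    have hq0 : q.comp (X ^ 2) = 0 := by
      by_contra h0
      have h4 := hH _ h0 (deg_comp2 hqd) (coeff_one_comp2 q)
      have h5 := mul_lt_mul_of_pos_right h4 hb
      have h6 : Lp0 c g M (q.comp (X ^ 2)) * Oo u r0 * Op u P =
          (Lp0 c g M P * Oo u r0) * Op u (q.comp (X ^ 2)) := by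
        calc Lp0 c g M (q.comp (X ^ 2)) * Oo u r0 * Op u P =
            (Lp0 c g M (q.comp (X ^ 2)) * Op u P) * Oo u r0 := by ring
          _ = _ := by rw [e1]; ring
      have h7 := mul_le_mul_of_nonneg_right h3 hOe
      rw [h6] at h5
      linarith
    have hPr : P = X * r.comp (X ^ 2) := by
      rw [hq0, zero_add] at hPs
      exact hPs
    have hr0' : r ≠ 0 := by
      intro h0
      rw [h0, zero_comp, mul_zero] at hPr
      exact hP hPr
    refine ⟨hc1, r, hr0', hrd.resolve_left hr0', hPr, ?_⟩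
    have e5 : Lp0 c g M P = Lam g (fun j => g j * M j) (r * r) := by
      conv_lhs => rw [hPr]
      exact Lp0_odd hPM
    have e6 : Op u P = Oo u r := by
      conv_lhs => rw [hPr]
      exact Op_odd
    rw [e5, e6] at h3
    exact h3
  -- sums of squares
  have lin : ∀ P A B : ℝ[X], P ≠ 0 → Gr0 c g M u n P → A.natDegree ≤ 2 * n → B.natDegree ≤ 2 * n → ∀ s : ℝ,
      Lp0 c g M A + Lp0 c g M B ≤ s * Lp0 c g M P → s * Op u P ≤ Op u A + Op u B →
        Gr0 c g M u n A ∧ Gr0 c g M u n B := by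
    intro P A B hP hGr hA hB s hs1 hs2
    obtain ⟨hPd, hmin⟩ := hGr
    have hb : 0 < Op u P := Op_pos hu0 huc hupos hi hP hPd
    have h1 := hmin A hA
    have h2 := hmin B hB
    have hOp0 : ∀ R, 0 ≤ Op u R := fun R => integral_nonneg fun x => mul_nonneg (sq_nonneg _) (hu0 x)
    have hLp0 : 0 ≤ Lp0 c g M P := Lp0_nonneg hc.le hPM.nonneg P
    have h3 : Lp0 c g M A * Op u P = Lp0 c g M P * Op u A ∧ Lp0 c g M B * Op u P = Lp0 c g M P * Op u B := by
      have h4 := mul_le_mul_of_nonneg_right hs1 hb.le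
      have h5 := mul_le_mul_of_nonneg_left hs2 hLp0
      constructor <;> nlinarith
    constructor
    · refine ⟨hA, fun R hR => ?_⟩
      have h4 := mul_le_mul_of_nonneg_right (hmin R hR) (hOp0 A)
      have h5 : Lp0 c g M A * Op u R * Op u P ≤ Lp0 c g M R * Op u A * Op u P := by
        calc Lp0 c g M A * Op u R * Op u P = (Lp0 c g M A * Op u P) * Op u R := by ring
          _ = Lp0 c g M P * Op u R * Op u A := by rw [h3.1]; ring
          _ ≤ _ := by linarith
      exact le_of_mul_le_mul_right h5 hb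
    · refine ⟨hB, fun R hR => ?_⟩
      have h4 := mul_le_mul_of_nonneg_right (hmin R hR) (hOp0 B)
      have h5 : Lp0 c g M B * Op u R * Op u P ≤ Lp0 c g M R * Op u B * Op u P := by
        calc Lp0 c g M B * Op u R * Op u P = (Lp0 c g M B * Op u P) * Op u R := by ring
          _ = Lp0 c g M P * Op u R * Op u B := by rw [h3.2]; ring
          _ ≤ _ := by linarith
      exact le_of_mul_le_mul_right h5 hb
  -- uniqueness
  have B1 : ∀ P P' : ℝ[X], P ≠ 0 → Gr0 c g M u n P → Gr0 c g M u n P' → ∃ k : ℝ, P' = C k * P := by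
    intro P P' hP hG hG'
    have hP0 : P.coeff 1 ≠ 0 := (A1 P hP hG).1
    obtain ⟨a, ha⟩ : ∃ a : ℝ, a = P.coeff 1 := ⟨_, rfl⟩
    obtain ⟨b, hb⟩ : ∃ b : ℝ, b = P'.coeff 1 := ⟨_, rfl⟩
    rw [← ha] at hP0
    -- the combination `a P' - b P`
    have hPd := hG.1
    have hPd' := hG'.1
    have d1 : (C a * P' - C b * P).natDegree ≤ 2 * n :=
      (natDegree_sub_le_of_le ((natDegree_C_mul_le _ _).trans hPd') ((natDegree_C_mul_le _ _).trans hPd)).trans
        (max_self _).le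
    have d2 : (C a * P' + C b * P).natDegree ≤ 2 * n :=
      natDegree_add_le_of_degree_le ((natDegree_C_mul_le _ _).trans hPd') ((natDegree_C_mul_le _ _).trans hPd)
    have epoly : (C a * P' - C b * P) * (C a * P' - C b * P) + (C a * P' + C b * P) * (C a * P' + C b * P) =
        C (2 * a ^ 2) * (P' * P') + C (2 * b ^ 2) * (P * P) := by
      simp only [C_mul, C_pow]
      rw [show (C 2 : ℝ[X]) = 2 from rfl]
      ring
    have hOpP : 0 < Op u P := Op_pos hu0 huc hupos hi hP hPd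
    have eL : Lp0 c g M (C a * P' - C b * P) + Lp0 c g M (C a * P' + C b * P) =
        2 * a ^ 2 * Lp0 c g M P' + 2 * b ^ 2 * Lp0 c g M P := by
      rw [Lp0_eq, Lp0_eq, Lp0_eq, Lp0_eq, ← LS0_mul, ← LS0_mul, ← LS0_add hPM (deg_sq d1 d1) (deg_sq d2 d2),
        ← LS0_add hPM ((natDegree_C_mul_le _ _).trans (deg_sq hPd' hPd')) ((natDegree_C_mul_le _ _).trans (deg_sq hPd hPd)),
        epoly]
    have eO : Op u (C a * P' - C b * P) + Op u (C a * P' + C b * P) = 2 * a ^ 2 * Op u P' + 2 * b ^ 2 * Op u P := by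
      rw [Op_eq, Op_eq, Op_eq, Op_eq, ← OS_mul, ← OS_mul, ← OS_add hu0 huc hi (deg_sq d1 d1) (deg_sq d2 d2),
        ← OS_add hu0 huc hi ((natDegree_C_mul_le _ _).trans (deg_sq hPd' hPd'))
          ((natDegree_C_mul_le _ _).trans (deg_sq hPd hPd)), epoly]
    have hPP' : Lp0 c g M P' * Op u P ≤ Lp0 c g M P * Op u P' := hG'.2 P hPd
    have hPP2 : Lp0 c g M P * Op u P' ≤ Lp0 c g M P' * Op u P := hG.2 P' hPd'
    have hrel : Lp0 c g M P' = Op u P' / Op u P * Lp0 c g M P := by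
      rw [div_mul_eq_mul_div, eq_div_iff hOpP.ne']
      linarith
    have hG2 := (lin P (C a * P' - C b * P) (C a * P' + C b * P) hP hG d1 d2
      (2 * a ^ 2 * (Op u P' / Op u P) + 2 * b ^ 2) (le_of_eq (by rw [eL, hrel]; ring))
      (le_of_eq (by rw [eO]; field_simp))).1
    by_cases h0 : C a * P' - C b * P = 0
    · refine ⟨b / a, ?_⟩
      have h1 : C a * P' = C b * P := sub_eq_zero.1 h0
      calc P' = C (a⁻¹ * a) * P' := by rw [inv_mul_cancel₀ hP0, C_1, one_mul]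
        _ = C a⁻¹ * (C a * P') := by rw [C_mul, mul_assoc]
        _ = C a⁻¹ * (C b * P) := by rw [h1]
        _ = C (b / a) * P := by rw [← mul_assoc, ← C_mul, div_eq_inv_mul]
    · exfalso
      apply (A1 _ h0 hG2).1
      rw [coeff_sub, coeff_C_mul, coeff_C_mul, ← ha, ← hb]
      ring
  refine ⟨fun P hP hG => ?_, B1⟩
  obtain ⟨hP0, r, hr⟩ := A1 P hP hG
  refine ⟨hP0, fun z hz => ?_, r, hr⟩
  by_contra him
  obtain ⟨T, hT⟩ := quadratic_dvd_of_aeval_eq_zero_im_ne_zero P hz him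
  obtain ⟨α, hα⟩ : ∃ α : ℝ, α = z.re := ⟨_, rfl⟩
  obtain ⟨β, hβ⟩ : ∃ β : ℝ, β = z.im := ⟨_, rfl⟩
  rw [← hβ] at him
  have hquad : X ^ 2 - C (2 * z.re) * X + C (‖z‖ ^ 2) = (X - C α) ^ 2 + C (β ^ 2) := by
    have e : ‖z‖ ^ 2 = α ^ 2 + β ^ 2 := by
      rw [← Complex.normSq_eq_norm_sq, Complex.normSq_apply, hα, hβ]
      ring
    rw [e, ← hα]
    simp only [C_mul, C_add, C_pow]
    rw [show (C 2 : ℝ[X]) = 2 from rfl]
    ring
  rw [hquad] at hT
  have hT0 : T ≠ 0 := by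
    rintro rfl
    rw [mul_zero] at hT
    exact hP hT
  have hPd := hG.1
  have hqd0 : ((X - C α) ^ 2 + C (β ^ 2) : ℝ[X]).natDegree = 2 := by
    rw [natDegree_add_C, natDegree_pow, natDegree_X_sub_C]
  have hqne : ((X - C α) ^ 2 + C (β ^ 2) : ℝ[X]) ≠ 0 := by
    intro h0
    rw [h0, natDegree_zero] at hqd0
    omega
  have hdP : P.natDegree = 2 + T.natDegree := by rw [hT, natDegree_mul hqne hT0, hqd0]
  have dA : (((X - C α) ^ 2 - C (β ^ 2)) * T).natDegree ≤ 2 * n := by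
    refine natDegree_mul_le.trans ?_
    rw [natDegree_sub_C, natDegree_pow, natDegree_X_sub_C]
    omega
  have dB : (C (2 * β) * (X - C α) * T).natDegree ≤ 2 * n := by
    refine natDegree_mul_le.trans ?_
    have h1 : (C (2 * β) * (X - C α) : ℝ[X]).natDegree ≤ 1 := by
      refine (natDegree_C_mul_le _ _).trans ?_
      rw [natDegree_X_sub_C]
    omega
  have epoly : (((X - C α) ^ 2 - C (β ^ 2)) * T) * (((X - C α) ^ 2 - C (β ^ 2)) * T) +
      (C (2 * β) * (X - C α) * T) * (C (2 * β) * (X - C α) * T) = P * P := by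
    rw [hT]
    simp only [C_mul, C_pow]
    rw [show (C 2 : ℝ[X]) = 2 from rfl]
    ring
  have eL : Lp0 c g M (((X - C α) ^ 2 - C (β ^ 2)) * T) + Lp0 c g M (C (2 * β) * (X - C α) * T) = Lp0 c g M P := by
    rw [Lp0_eq, Lp0_eq, Lp0_eq, ← LS0_add hPM (deg_sq dA dA) (deg_sq dB dB), epoly]
  have eO : Op u (((X - C α) ^ 2 - C (β ^ 2)) * T) + Op u (C (2 * β) * (X - C α) * T) = Op u P := by
    rw [Op_eq, Op_eq, Op_eq, ← OS_add hu0 huc hi (deg_sq dA dA) (deg_sq dB dB), epoly]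
  have hGB := (lin P _ _ hP hG dA dB 1 (by rw [eL]; linarith) (by rw [eO]; linarith)).2
  obtain ⟨k, hk⟩ := B1 P _ hP hG hGB
  rw [hT, ← mul_assoc] at hk
  have h1 := mul_right_cancel₀ hT0 hk
  have h2 := congrArg (eval α) h1
  simp only [eval_mul, eval_C, eval_sub, eval_X, eval_add, eval_pow, sub_self] at h2
  have hc0 : k = 0 := by
    have h3 : k * β ^ 2 = 0 := by linarith
    rcases mul_eq_zero.1 h3 with h4 | h4
    · exact h4
    · exact absurd (pow_eq_zero_iff (by norm_num) |>.1 h4) him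
  have h3 := congrArg (eval (α + 1)) h1
  simp only [eval_mul, eval_C, eval_sub, eval_X, eval_add, eval_pow, hc0] at h3
  apply him
  linarith

end Pool.Agent.Q224.CG
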